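import Pool.Agent.Helper77.DI.Defs

/-!
Auxiliary definitions for the ACC theorem: highest weight elements, the univariate polynomial `phi`,
the Fischer form, and the combinatorial steps.
-/

namespace Pool.Agent.Helper77.DI

open MvPolynomial

noncomputable section

/-- The unipotent substitution in column `i`: `x_α ↦ x_α + τ x_{α[i:=0]}` if `α i = 1`. -/
def uMap {ι : Type} [DecidableEq ι] (i : ι) (τ : ℂ) :
    MvPolynomial (ι → Fin 2) ℂ →ₐ[ℂ] MvPolynomial (ι → Fin 2) ℂ :=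
  aeval fun α => if α i = 1 then X α + C τ * X (Function.update α i 0) else X α

/-- `F` is homogeneous of degree `k`, has weight `b` (in column `i` the letter `1` occurs `b i`
times in each monomial) and is invariant under the unipotent substitutions. -/
structure HW {ι : Type} [DecidableEq ι] (F : MvPolynomial (ι → Fin 2) ℂ) (k : ℕ) (b : ι → ℕ) :
    Prop where
  homog : F.IsHomogeneous k
  weight : ∀ m ∈ F.support, ∀ i, (m.sum fun α e => e * (α i : ℕ)) = b i
  inv : ∀ (i : ι) (τ : ℂ), uMap i τ F = F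

/-- `phi F = F(x_0 = 1 + T, x_α = T for α ≠ 0)`. -/
def phi {ι : Type} [Finite ι] : MvPolynomial (ι → Fin 2) ℂ →ₐ[ℂ] Polynomial ℂ :=
  open Classical in
  aeval fun α => if α = 0 then Polynomial.X + 1 else Polynomial.X

/-- Fischer form. -/
def fis {σ : Type} (f g : MvPolynomial σ ℂ) : ℂ :=
  ∑ m ∈ f.support, coeff m f * (starRingEnd ℂ) (coeff m g) *
    (m.prod fun _ e => (Nat.factorial e : ℂ))

/-- The basic steps on data `(k, r, s)`. -/
inductive Step : ℕ × ℕ × Multiset ℕ → ℕ × ℕ × Multiset ℕ → Prop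
  | x0 (k r : ℕ) (s : Multiset ℕ) : Step (k, r, s) (k + 1, r, s)
  | even (k r : ℕ) (s t : Multiset ℕ) (h : Even (Multiset.card s)) (h2 : 2 ≤ Multiset.card s) :
      Step (k, r, s + t) (k + 2, r + 1, s.map (· + 1) + t)
  | odd (k r : ℕ) (s t : Multiset ℕ) (h : Odd (Multiset.card s)) (h3 : 3 ≤ Multiset.card s) :
      Step (k, r, s + t) (k + 4, r + 2, s.map (· + 2) + t)
  | zero (k r : ℕ) (s : Multiset ℕ) : Step (k, r, s) (k, r, 0 ::ₘ s)
  | pair (k r l : ℕ) (s : Multiset ℕ) (h : l ≤ r) : Step (k, r, s) (k, r, l ::ₘ l ::ₘ s)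

/-- The constraints satisfied by all data. -/
def Valid (x : ℕ × ℕ × Multiset ℕ) : Prop :=
  x.2.2 ≠ 0 ∧ (∀ b ∈ x.2.2, b ≤ x.2.1) ∧ 2 * x.2.1 ≤ x.1 ∧ 2 * x.2.1 ≤ x.2.2.sum ∧
    (x.1 = 2 * x.2.1 → Even x.2.2.sum)

end

end Pool.Agent.Helper77.DI
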