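import Pool.Agent.Helper77.DI.Pair2
import Pool.Agent.Helper50.DI.PhiB

/-!
Data of a Delta-ideal.
-/

namespace Pool.Agent.Helper77.DI

open MvPolynomial

noncomputable section

/-- `(k, r, s)` is a datum of `I`. -/
def Dat (I : DeltaIdeal) (x : ℕ × ℕ × Multiset ℕ) : Prop :=
  ∃ (ι : Type) (_ : Fintype ι) (_ : DecidableEq ι) (_ : Nonempty ι) (b : ι → ℕ)
    (F : MvPolynomial (ι → Fin 2) ℂ), F ∈ I.ideal ι (fun _ => Fin 2) ∧ HW F x.1 b ∧ phi F ≠ 0 ∧
      (phi F).natTrailingDegree = x.2.1 ∧ Finset.univ.val.map b = x.2.2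

theorem Dat.mono {I J : DeltaIdeal} (h : I.le J) {x : ℕ × ℕ × Multiset ℕ} (hx : Dat I x) :
    Dat J x := by
  obtain ⟨ι, _, _, _, b, F, hF, h1, h2, h3, h4⟩ := hx
  exact ⟨ι, _, _, ‹_›, b, F, h ι _ hF, h1, h2, h3, h4⟩

theorem exists_equiv_of_map_eq {ι ι' : Type} [Fintype ι] [Fintype ι'] (f : ι → ℕ) (g : ι' → ℕ)
    (h : Finset.univ.val.map f = Finset.univ.val.map g) : ∃ e : ι ≃ ι', ∀ i, g (e i) = f i := by
  classical
  have hc : ∀ c, Nonempty ({i // f i = c} ≃ {i' // g i' = c}) := by
    intro c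
    rw [← Fintype.card_eq]
    have h1 := congrArg (Multiset.count c) h
    rw [Multiset.count_map, Multiset.count_map] at h1
    have e1 : ∀ {κ : Type} [Fintype κ] (f : κ → ℕ), Fintype.card {i // f i = c} =
        Multiset.card (Multiset.filter (fun a => c = f a) (Finset.univ : Finset κ).val) := by
      intro κ _ f
      rw [Fintype.card_subtype]
      simp_rw [eq_comm (a := c)]
      rfl
    rw [e1, e1]
    exact h1
  refine ⟨(Equiv.sigmaFiberEquiv f).symm.trans
    ((Equiv.sigmaCongrRight fun c => Classical.choice (hc c)).trans (Equiv.sigmaFiberEquiv g)), ?_⟩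
  intro i
  simp only [Equiv.trans_apply]
  have h2 : ∀ x : (Σ y, {x // f x = y}), g (Equiv.sigmaFiberEquiv g
      ((Equiv.sigmaCongrRight fun c => Classical.choice (hc c)) x)) = x.1 := by
    intro x
    exact ((Classical.choice (hc x.1)) x.2).2
  rw [h2]
  rfl

theorem dMap_relabel {ι ι' : Type} (e : ι ≃ ι') (w : (ι → Fin 2) → ℕ) (w' : (ι' → Fin 2) → ℕ)
    (h : ∀ α, w' (fun i => α (e.symm i)) = w α) (t : ℂ) (F : MvPolynomial (ι → Fin 2) ℂ) :
    dMap w' t (relabel e F) = relabel e (dMap w t F) := by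
  have e1 : (dMap w' t).comp (relabel e) = (relabel e).comp (dMap w t) := by
    apply MvPolynomial.algHom_ext
    intro α
    rw [AlgHom.comp_apply, AlgHom.comp_apply, dMap_X, relabel, rename_X, dMap_X, h, map_mul,
      rename_C, rename_X]
  exact DFunLike.congr_fun e1 F

theorem uMap_relabel {ι ι' : Type} [DecidableEq ι] [DecidableEq ι'] (e : ι ≃ ι') (i : ι') (τ : ℂ)
    (F : MvPolynomial (ι → Fin 2) ℂ) :
    uMap i τ (relabel e F) = relabel e (uMap (e.symm i) τ F) := by
  have e1 : (uMap i τ).comp (relabel e) = (relabel e).comp (uMap (e.symm i) τ) := by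
    apply MvPolynomial.algHom_ext
    intro α
    have h : Function.update (fun i => α (e.symm i)) i 0 =
        fun j => Function.update α (e.symm i) 0 (e.symm j) := by
      funext j
      by_cases hj : j = i
      · rw [hj, Function.update_self, Function.update_self]
      · rw [Function.update_of_ne hj, Function.update_of_ne (fun h => hj (e.symm.injective h))]
    rw [AlgHom.comp_apply, AlgHom.comp_apply, relabel, rename_X, uMap, uMap, aeval_X, aeval_X]
    split_ifs
    · rw [map_add, map_mul, rename_C, rename_X, rename_X, h]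
    · rw [rename_X]
  exact DFunLike.congr_fun e1 F

theorem HW.relabel {ι ι' : Type} [DecidableEq ι] [DecidableEq ι'] (e : ι ≃ ι')
    {F : MvPolynomial (ι → Fin 2) ℂ} {k : ℕ} {b : ι → ℕ} (hF : HW F k b) :
    HW (relabel e F) k (fun i => b (e.symm i)) := by
  have hc : ∀ c : ℂ, DI.relabel e (C c * F) = C c * DI.relabel e F := by
    intro c
    rw [DI.relabel, map_mul, rename_C]
  apply HW.mk'
  · rw [dMap_relabel e (fun _ => 1) (fun _ => 1) (fun _ => rfl), hF.dMap_one, hc]
  · intro i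
    rw [dMap_relabel e (fun α => (α (e.symm i) : ℕ)) _ (fun _ => rfl), hF.dMap_col, hc]
  · intro i τ
    rw [uMap_relabel, hF.inv]

theorem phi_relabel {ι ι' : Type} [Finite ι] [Finite ι'] (e : ι ≃ ι')
    (F : MvPolynomial (ι → Fin 2) ℂ) : phi (relabel e F) = phi F := by
  classical
  have e1 : (phi (ι := ι')).comp (relabel e) = phi := by
    apply MvPolynomial.algHom_ext
    intro α
    have h : ((fun i => α (e.symm i)) = 0) ↔ α = 0 := by
      constructor
      · intro h
        funext i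
        have := congrFun h (e i)
        rwa [e.symm_apply_apply] at this
      · rintro rfl
        rfl
    rw [AlgHom.comp_apply, relabel, rename_X, phi_X, phi_X]
    simp only [h]
  exact DFunLike.congr_fun e1 F

theorem Dat.exists_on {I : DeltaIdeal} {k r : ℕ} {s : Multiset ℕ} (h : Dat I (k, r, s))
    {ι : Type} [Fintype ι] [DecidableEq ι] [Nonempty ι] (b : ι → ℕ)
    (hb : Finset.univ.val.map b = s) :
    ∃ F ∈ I.ideal ι (fun _ => Fin 2), HW F k b ∧ phi F ≠ 0 ∧ (phi F).natTrailingDegree = r := by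
  obtain ⟨ι', _, _, _, b', F, hF, h1, h2, h3, h4⟩ := h
  obtain ⟨e, he⟩ := exists_equiv_of_map_eq b' b (h4.trans hb.symm)
  refine ⟨relabel e F, mem_relabel I e F hF, ?_, ?_, ?_⟩
  · have h5 := h1.relabel e
    have h6 : (fun i => b' (e.symm i)) = b := by
      funext i
      rw [← he, e.apply_symm_apply]
    rwa [h6] at h5
  · rwa [phi_relabel]
  · rwa [phi_relabel]

theorem exists_enum {β : Type} (p : Multiset β) : ∃ f : Fin (Multiset.card p) → β,
    Finset.univ.val.map f = p := by
  induction p using Quotient.inductionOn with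
  | h l =>
    refine ⟨fun i => l.get i, ?_⟩
    rw [Fin.univ_val_map]
    exact congrArg _ (List.ofFn_get l)

/-- the unit Delta-ideal -/
def topI : DeltaIdeal where
  ideal := fun _ _ _ _ _ => ⊤
  homog := fun _ _ _ _ _ _ _ _ => trivial
  linear := fun _ _ _ _ _ _ _ _ _ _ => trivial
  merge := fun _ _ _ _ _ _ _ _ _ _ _ _ => trivial

theorem Dat.ne_zero {I : DeltaIdeal} {x : ℕ × ℕ × Multiset ℕ} (h : Dat I x) : x.2.2 ≠ 0 := by
  obtain ⟨ι', _, _, _, b', F, hF, h1, h2, h3, h4⟩ := h
  rw [← h4]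
  intro h
  rw [Multiset.map_eq_zero, Finset.val_eq_zero] at h
  exact Finset.univ_nonempty.ne_empty h

theorem Dat.valid {I : DeltaIdeal} {x : ℕ × ℕ × Multiset ℕ} (h : Dat I x) : Valid x := by
  obtain ⟨k, r, s⟩ := x
  obtain ⟨ι', _, _, _, b', F, hF, h1, h2, h3, h4⟩ := h
  have := valid_of_hw h1 h2
  simp only at h3 h4
  rwa [h3, h4] at this

theorem Dat.mul {I : DeltaIdeal} {k r k' r' : ℕ} (p : Multiset (ℕ × ℕ))
    (h : Dat I (k, r, p.map Prod.fst)) (h' : Dat topI (k', r', p.map Prod.snd)) :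
    Dat I (k + k', r + r', p.map fun q => q.1 + q.2) := by
  obtain ⟨f, hf⟩ := exists_enum p
  have hp : Multiset.card p ≠ 0 := by
    intro h0
    apply h.ne_zero
    rw [Multiset.card_eq_zero] at h0
    rw [h0]
    rfl
  have : Nonempty (Fin (Multiset.card p)) := ⟨⟨0, Nat.pos_of_ne_zero hp⟩⟩
  have hf' : ∀ g : ℕ × ℕ → ℕ, Finset.univ.val.map (fun i => g (f i)) = p.map g := by
    intro g
    have := congrArg (Multiset.map g) hf
    rwa [Multiset.map_map] at this
  obtain ⟨F, hF, h1, h2, h3⟩ := h.exists_on (fun i => (f i).1) (hf' Prod.fst)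
  obtain ⟨G, -, g1, g2, g3⟩ := h'.exists_on (fun i => (f i).2) (hf' Prod.snd)
  refine ⟨_, inferInstance, inferInstance, this, _, F * G, Ideal.mul_mem_right _ _ hF,
    h1.mul g1, ?_, ?_, ?_⟩
  · rw [map_mul]
    exact mul_ne_zero h2 g2
  · rw [map_mul, Polynomial.natTrailingDegree_mul h2 g2, h3, g3]
  · exact hf' (fun q => q.1 + q.2)

theorem natTrailingDegree_eq_of {p : Polynomial ℂ} {r : ℕ} (h0 : p.coeff r ≠ 0)
    (h : ∀ m < r, p.coeff m = 0) : p ≠ 0 ∧ p.natTrailingDegree = r := by
  have hp : p ≠ 0 := by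
    rintro rfl
    exact h0 (Polynomial.coeff_zero r)
  exact ⟨hp, le_antisymm (Polynomial.natTrailingDegree_le_of_ne_zero h0)
    (Polynomial.le_natTrailingDegree hp h)⟩

theorem coeff_natTrailingDegree_ne {p : Polynomial ℂ} (hp : p ≠ 0) :
    p.coeff p.natTrailingDegree ≠ 0 := by
  rw [← Polynomial.trailingCoeff]
  exact fun h => hp (Polynomial.trailingCoeff_eq_zero.mp h)

theorem univ_map_elim {κ μ : Type} [Fintype κ] [Fintype μ] (f : κ → ℕ) (g : μ → ℕ) :
    (Finset.univ : Finset (κ ⊕ μ)).val.map (Sum.elim f g) =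
      Finset.univ.val.map f + Finset.univ.val.map g := by
  have h : (Finset.univ : Finset (κ ⊕ μ)) = Finset.disjSum Finset.univ Finset.univ := by
    ext x
    simp
  rw [h, Finset.val_disjSum, Multiset.map_disjSum]
  rfl

theorem Dat.pair {I : DeltaIdeal} {k r : ℕ} {s : Multiset ℕ} (h : Dat I (k, r, s)) (l : ℕ)
    (hl : l ≤ r) : Dat I (k, r, l ::ₘ l ::ₘ s) := by
  classical
  have hv := h.valid
  obtain ⟨ι, _, _, _, b, F, hF, h1, h2, h3, h4⟩ := h
  simp only at h3 h4 h1
  have h2r : 2 * r ≤ k := hv.2.2.1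
  have hk : k = (k - 2 * l) + 2 * l := by omega
  have hc : (phi F).coeff r ≠ 0 := by
    rw [← h3]
    exact coeff_natTrailingDegree_ne h2
  have key := natTrailingDegree_eq_of (p := phi (pins (k - 2 * l) l F)) (r := r) (by
    rw [coeff_phi_pins h1.homog hk r (by omega)]
    apply mul_ne_zero hc
    rw [Nat.cast_ne_zero]
    apply Nat.mul_ne_zero (Nat.mul_ne_zero _ _) (Nat.factorial_ne_zero _)
    · rw [Ne, Nat.descFactorial_eq_zero_iff_lt]
      omega
    · rw [Ne, Nat.descFactorial_eq_zero_iff_lt]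
      omega) (by
    intro m hm
    rw [coeff_phi_pins h1.homog hk m (by omega),
      Polynomial.coeff_eq_zero_of_lt_natTrailingDegree (by omega), zero_mul])
  refine ⟨ι ⊕ Fin 2, inferInstance, inferInstance, inferInstance, Sum.elim b (fun _ => l),
    pins (k - 2 * l) l F, mem_pins I _ _ F hF, h1.pins, key.1, key.2, ?_⟩
  rw [univ_map_elim, h4, Fin.univ_val_map]
  rw [List.ofFn_succ, List.ofFn_succ, List.ofFn_zero, ← Multiset.cons_coe, ← Multiset.cons_coe,
    Multiset.coe_nil, add_comm, Multiset.cons_add, Multiset.cons_add, zero_add]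

/-- insertion of a zero column -/
def zins {κ : Type} : MvPolynomial (κ → Fin 2) ℂ →ₐ[ℂ] MvPolynomial (κ ⊕ Fin 1 → Fin 2) ℂ :=
  rename fun α => Sum.elim α 0

theorem mem_zins (I : DeltaIdeal) {κ : Type} [Fintype κ] [DecidableEq κ] [Nonempty κ]
    (F : MvPolynomial (κ → Fin 2) ℂ) (hF : F ∈ I.ideal κ (fun _ => Fin 2)) :
    zins F ∈ I.ideal (κ ⊕ Fin 1) (fun _ => Fin 2) := by
  have h := mem_ins I (μ := Fin 1) (fun γ => if γ = 0 then 1 else 0) F hF
  convert h using 1
  have e : zins (κ := κ) = ins (fun γ : Fin 1 → Fin 2 => if γ = 0 then 1 else 0) := by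
    apply MvPolynomial.algHom_ext
    intro α
    rw [zins, rename_X, ins, aeval_X, Finset.sum_eq_single 0]
    · simp
    · intro γ _ hγ
      rw [if_neg hγ, C_0, zero_mul]
    · intro h
      exact absurd (Finset.mem_univ _) h
  rw [e]

theorem dMap_zins {κ : Type} (w : (κ → Fin 2) → ℕ) (w' : (κ ⊕ Fin 1 → Fin 2) → ℕ)
    (h : ∀ α, w' (Sum.elim α 0) = w α) (t : ℂ) (F : MvPolynomial (κ → Fin 2) ℂ) :
    dMap w' t (zins F) = zins (dMap w t F) := by
  have e1 : (dMap w' t).comp (zins (κ := κ)) = zins.comp (dMap w t) := by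
    apply MvPolynomial.algHom_ext
    intro α
    rw [AlgHom.comp_apply, AlgHom.comp_apply, dMap_X, zins, rename_X, dMap_X, h, map_mul,
      rename_C, rename_X]
  exact DFunLike.congr_fun e1 F

theorem HW.zins {κ : Type} [DecidableEq κ] {F : MvPolynomial (κ → Fin 2) ℂ} {k : ℕ} {b : κ → ℕ}
    (hF : HW F k b) : HW (zins F) k (Sum.elim b (fun _ => 0)) := by
  have hc : ∀ c : ℂ, DI.zins (C c * F) = C c * DI.zins F := by
    intro c
    rw [DI.zins, map_mul, rename_C]
  apply HW.mk'
  · rw [dMap_zins (fun _ => 1) (fun _ => 1) (fun _ => rfl), hF.dMap_one, hc]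
  · intro i
    rcases i with i | i
    · rw [dMap_zins (fun α => (α i : ℕ)) _ (fun _ => rfl), hF.dMap_col, hc]
      rfl
    · rw [dMap_zins (fun _ => 0) _ (fun _ => rfl), Sum.elim_inr]
      have h : dMap (fun _ : κ → Fin 2 => 0) 2 F = F := by
        have h : dMap (fun _ : κ → Fin 2 => 0) 2 = AlgHom.id ℂ _ := by
          apply MvPolynomial.algHom_ext
          intro α
          rw [dMap_X, pow_zero, C_1, one_mul]
          rfl
        rw [h]
        rfl
      rw [h, pow_zero, C_1, one_mul]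
  · intro i τ
    rcases i with i | i
    · have e1 : (uMap (Sum.inl i) τ).comp (DI.zins (κ := κ)) = DI.zins.comp (uMap i τ) := by
        apply MvPolynomial.algHom_ext
        intro α
        rw [AlgHom.comp_apply, AlgHom.comp_apply, DI.zins, rename_X, uMap, uMap, aeval_X, aeval_X,
          Sum.elim_inl]
        split_ifs
        · rw [map_add, map_mul, rename_C, rename_X, rename_X, Sum.update_elim_inl]
        · rw [rename_X]
      have := DFunLike.congr_fun e1 F
      rw [AlgHom.comp_apply, AlgHom.comp_apply, hF.inv] at this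
      exact this
    · have e1 : (uMap (Sum.inr i) τ).comp (DI.zins (κ := κ)) = DI.zins := by
        apply MvPolynomial.algHom_ext
        intro α
        rw [AlgHom.comp_apply, DI.zins, rename_X, uMap, aeval_X, Sum.elim_inr, if_neg (by simp)]
      exact DFunLike.congr_fun e1 F

theorem phi_zins {κ : Type} [Finite κ] (F : MvPolynomial (κ → Fin 2) ℂ) :
    phi (zins F) = phi F := by
  classical
  have e1 : (phi (ι := κ ⊕ Fin 1)).comp (zins (κ := κ)) = phi := by
    apply MvPolynomial.algHom_ext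
    intro α
    have h : (Sum.elim α 0 : κ ⊕ Fin 1 → Fin 2) = 0 ↔ α = 0 := by
      constructor
      · intro h
        funext i
        exact congrFun h (Sum.inl i)
      · rintro rfl
        funext i
        rcases i with i | i <;> rfl
    rw [AlgHom.comp_apply, zins, rename_X, phi_X, phi_X]
    simp only [h]
  exact DFunLike.congr_fun e1 F

theorem Dat.zero {I : DeltaIdeal} {k r : ℕ} {s : Multiset ℕ} (h : Dat I (k, r, s)) :
    Dat I (k, r, 0 ::ₘ s) := by
  obtain ⟨ι, _, _, _, b, F, hF, h1, h2, h3, h4⟩ := h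
  refine ⟨ι ⊕ Fin 1, inferInstance, inferInstance, inferInstance, Sum.elim b (fun _ => 0),
    zins F, mem_zins I F hF, h1.zins, by rwa [phi_zins], by rwa [phi_zins], ?_⟩
  simp only at h4
  rw [univ_map_elim, h4, Fin.univ_val_map]
  rw [List.ofFn_succ, List.ofFn_zero, ← Multiset.cons_coe, Multiset.coe_nil, add_comm,
    Multiset.cons_add, zero_add]

end

end Pool.Agent.Helper77.DI
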