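import Mathlib

/-!
Delta-ideals (MP_b07a0a). A finite family of finite-dimensional complex vector spaces is given by a
finite nonempty index type `ι` and finite types `V i`: the i-th space is `ℂ^(V i)`. The tensor
product has the basis `∀ i, V i`, and its symmetric algebra is `MvPolynomial (∀ i, V i) ℂ`.
-/

namespace Pool.Agent.Helper77.DI

open MvPolynomial

noncomputable section

/-- The ring map `Sym(⊗ V i) → Sym(⊗ V' i)` induced by the linear maps
`ℂ^(V i) → ℂ^(V' i)` with matrices `A i`, that is `e_c ↦ ∑ c', A i c' c • e_c'`. -/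
def lmap {ι : Type} {V V' : ι → Type} (A : ∀ i, V' i → V i → ℂ) :
    MvPolynomial (∀ i, V i) ℂ →ₐ[ℂ] MvPolynomial (∀ i, V' i) ℂ :=
  aeval fun α => ∑ᶠ β : (∀ i, V' i), C (∏ᶠ i, A i (β i) (α i)) * X β

/-- A Delta-ideal: homogeneous ideals of `Sym(⊗ V i)` for all families, compatible with linear
maps and with grouping tensor factors along a surjection `π : ι → κ` of index types:
the family over `κ` has the spaces `⊗_{π i = j} V i`, so both families have the same tensor
product, and the ideal of the grouped family lies in the ideal of the family `V`. -/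
structure DeltaIdeal where
  /-- the ideals -/
  ideal : ∀ (ι : Type) [Finite ι] [Nonempty ι] (V : ι → Type) [∀ i, Finite (V i)],
    Ideal (MvPolynomial (∀ i, V i) ℂ)
  homog : ∀ (ι : Type) [Finite ι] [Nonempty ι] (V : ι → Type) [∀ i, Finite (V i)]
    (f : MvPolynomial (∀ i, V i) ℂ) (k : ℕ), f ∈ ideal ι V → homogeneousComponent k f ∈ ideal ι V
  linear : ∀ (ι : Type) [Finite ι] [Nonempty ι] (V V' : ι → Type) [∀ i, Finite (V i)]
    [∀ i, Finite (V' i)] (A : ∀ i, V' i → V i → ℂ) (f : MvPolynomial (∀ i, V i) ℂ),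
    f ∈ ideal ι V → lmap A f ∈ ideal ι V'
  merge : ∀ (ι κ : Type) [Finite ι] [Nonempty ι] [Finite κ] [Nonempty κ] (π : ι → κ),
    Function.Surjective π → ∀ (V : ι → Type) [∀ i, Finite (V i)]
    (f : MvPolynomial (∀ j : κ, ∀ i : {i : ι // π i = j}, V i) ℂ),
    f ∈ ideal κ (fun j => ∀ i : {i : ι // π i = j}, V i) →
      rename (fun β i => β (π i) ⟨i, rfl⟩) f ∈ ideal ι V

/-- Inclusion of Delta-ideals. -/
def DeltaIdeal.le (I J : DeltaIdeal) : Prop :=
  ∀ (ι : Type) [Finite ι] [Nonempty ι] (V : ι → Type) [∀ i, Finite (V i)],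
    I.ideal ι V ≤ J.ideal ι V

/-- `I` contains the ideal of the first secant variety of the Segre varieties: all polynomials
vanishing on all sums of two pure tensors. -/
def DeltaIdeal.ContainsSecant (I : DeltaIdeal) : Prop :=
  ∀ (ι : Type) [Finite ι] [Nonempty ι] (V : ι → Type) [∀ i, Finite (V i)]
    (f : MvPolynomial (∀ i, V i) ℂ),
    (∀ a b : ∀ i, V i → ℂ, eval (fun α => ∏ᶠ i, a i (α i) + ∏ᶠ i, b i (α i)) f = 0) →
      f ∈ I.ideal ι V

end

end Pool.Agent.Helper77.DI
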