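import Pool.Agent.Helper77.DI.Defs

/-!
Elements of Delta-ideals.
-/

namespace Pool.Agent.Helper77.DI

open MvPolynomial

noncomputable section

/-- An element of the symmetric algebra `Sym(⊗ V i)` of some finite nonempty family of
finite-dimensional spaces `ℂ^(V i)`. -/
structure Elt : Type 1 where
  /-- index set of the family -/
  ι : Type
  /-- the spaces are `ℂ^(V i)` -/
  V : ι → Type
  finι : Finite ι
  neι : Nonempty ι
  finV : ∀ i, Finite (V i)
  /-- the element -/
  f : MvPolynomial (∀ i, V i) ℂ

/-- The element `x` lies in the Delta-ideal `I`. -/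
def DeltaIdeal.Mem (I : DeltaIdeal) (x : Elt) : Prop :=
  have := x.finι
  have := x.neι
  have := x.finV
  x.f ∈ I.ideal x.ι x.V

end

end Pool.Agent.Helper77.DI
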