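import Pool.Agent.Helper77.DI.Final
import Pool.Agent.Helper77.DI.Elt

/-!
Finite generation modulo the ideals of the first secant varieties.
-/

namespace Pool.Agent.Helper77.DI

open MvPolynomial

noncomputable section

/-- Intersection of a family of Delta-ideals. -/
def interI (P : DeltaIdeal → Prop) : DeltaIdeal where
  ideal := fun ι _ _ V _ => ⨅ J : {J : DeltaIdeal // P J}, J.1.ideal ι V
  homog := by
    intro ι _ _ V _ f k hf
    rw [Submodule.mem_iInf] at hf ⊢
    exact fun J => J.1.homog ι V f k (hf J)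
  linear := by
    intro ι _ _ V V' _ _ A f hf
    rw [Submodule.mem_iInf] at hf ⊢
    exact fun J => J.1.linear ι V V' A f (hf J)
  merge := by
    intro ι κ _ _ _ _ π hπ V _ f hf
    rw [Submodule.mem_iInf] at hf ⊢
    exact fun J => J.1.merge ι κ π hπ V f (hf J)

theorem mem_interI (P : DeltaIdeal → Prop) (x : Elt) :
    (interI P).Mem x ↔ ∀ J : DeltaIdeal, P J → J.Mem x := by
  simp only [DeltaIdeal.Mem, interI, Submodule.mem_iInf]
  exact ⟨fun h J hJ => h ⟨J, hJ⟩, fun h J => h J.1 J.2⟩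

theorem le_iff_mem (I J : DeltaIdeal) : I.le J ↔ ∀ x : Elt, I.Mem x → J.Mem x := by
  constructor
  · intro h x hx
    have := x.finι
    have := x.neι
    have := x.finV
    exact h x.ι x.V hx
  · intro h ι _ _ V _ f hf
    exact h ⟨ι, V, ‹_›, ‹_›, ‹_›, f⟩ hf

/-- The Delta-ideal generated by `S` and the ideals of the first secant varieties. -/
def genI (S : List Elt) : DeltaIdeal :=
  interI fun J => J.ContainsSecant ∧ ∀ x ∈ S, J.Mem x

theorem genI_secant (S : List Elt) : (genI S).ContainsSecant := by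
  intro ι _ _ V _ f hf
  have h : (genI S).Mem ⟨ι, V, ‹_›, ‹_›, ‹_›, f⟩ := by
    rw [genI, mem_interI]
    exact fun J hJ => hJ.1 ι V f hf
  exact h

theorem fg (I : DeltaIdeal) : ∃ S : List Elt, (∀ x ∈ S, I.Mem x) ∧
    ∀ J : DeltaIdeal, J.ContainsSecant → (∀ x ∈ S, J.Mem x) → I.le J := by
  by_contra hcon
  push Not at hcon
  have h1 : ∀ S : {S : List Elt // ∀ x ∈ S, I.Mem x}, ∃ x : Elt, I.Mem x ∧ ¬ (genI S.1).Mem x := by
    rintro ⟨S, hS⟩
    obtain ⟨J, hJ1, hJ2, hJ3⟩ := hcon S hS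
    rw [le_iff_mem] at hJ3
    push Not at hJ3
    obtain ⟨x, hx1, hx2⟩ := hJ3
    refine ⟨x, hx1, fun hx3 => hx2 ?_⟩
    rw [genI, mem_interI] at hx3
    exact hx3 J ⟨hJ1, hJ2⟩
  choose g hg1 hg2 using h1
  let nxt : {S : List Elt // ∀ x ∈ S, I.Mem x} → {S : List Elt // ∀ x ∈ S, I.Mem x} := fun S =>
    ⟨g S :: S.1, by
      intro x hx
      rcases List.mem_cons.mp hx with hx | hx
      · rw [hx]
        exact hg1 S
      · exact S.2 x hx⟩
  let c : ℕ → {S : List Elt // ∀ x ∈ S, I.Mem x} := fun t =>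
    Nat.rec ⟨[], by simp⟩ (fun _ S => nxt S) t
  have hc : ∀ t, (c (t + 1)).1 = g (c t) :: (c t).1 := fun t => rfl
  obtain ⟨N, hN⟩ := acc (fun t => genI (c t).1) (by
    intro n
    rw [le_iff_mem]
    intro x hx
    rw [genI, mem_interI] at hx ⊢
    intro J hJ
    apply hx J
    refine ⟨hJ.1, fun y hy => hJ.2 y ?_⟩
    rw [hc]
    exact List.mem_cons_of_mem _ hy) (genI_secant _)
  apply hg2 (c N)
  have h2 := hN (N + 1) (Nat.le_succ N)
  rw [le_iff_mem] at h2
  apply h2
  rw [genI, mem_interI]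
  intro J hJ
  apply hJ.2
  rw [hc]
  exact List.mem_cons_self

end

end Pool.Agent.Helper77.DI
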