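import Pool.Agent.Helper77.DI.Seed
import Pool.Agent.Helper91.DI.Fis
import Pool.Agent.Helper59.DI.Wqo
import Pool.Agent.Helper65.DI.Hw
import Pool.Agent.Helper82.DI.PhiA

/-!
The ascending chain condition for Delta-ideals containing the ideals of the first secant varieties.
-/

namespace Pool.Agent.Helper77.DI

open MvPolynomial

noncomputable section

/-- Every highest weight element of `J` agrees with one of `I` up to `phi`. -/
theorem exists_same_phi {I J : DeltaIdeal}
    (hD : ∀ x, Dat J x → Dat I x) {ι : Type} [Fintype ι] [DecidableEq ι] [Nonempty ι]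
    {k : ℕ} {b : ι → ℕ} (n : ℕ) : ∀ F ∈ J.ideal ι (fun _ => Fin 2), HW F k b →
      (∀ m < k + 1 - n, (phi F).coeff m = 0) →
      (∀ G ∈ I.ideal ι (fun _ => Fin 2), G ∈ J.ideal ι (fun _ => Fin 2)) →
      ∃ G ∈ I.ideal ι (fun _ => Fin 2), HW G k b ∧ phi G = phi F := by
  induction n with
  | zero =>
    intro F hF hH h0 _
    have hphi : phi F = 0 := by
      by_contra hne
      have hv := valid_of_hw hH hne
      have h2 : 2 * (phi F).natTrailingDegree ≤ k := hv.2.2.1
      exact coeff_natTrailingDegree_ne hne (h0 _ (by omega))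
    exact ⟨0, Ideal.zero_mem _, HW.zero k b, by rw [hphi, map_zero]⟩
  | succ n ih =>
    intro F hF hH h0 hIJ
    by_cases hc : (phi F).coeff (k + 1 - (n + 1)) = 0
    · apply ih F hF hH _ hIJ
      intro m hm
      by_cases hm2 : m = k + 1 - (n + 1)
      · rw [hm2, hc]
      · exact h0 m (by omega)
    · obtain ⟨hne, hr⟩ := natTrailingDegree_eq_of hc (fun m hm => h0 m hm)
      have hdJ : Dat J (k, k + 1 - (n + 1), Finset.univ.val.map b) :=
        ⟨ι, inferInstance, inferInstance, inferInstance, b, F, hF, hH, hne, hr, rfl⟩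
      obtain ⟨G, hG, g1, g2, g3⟩ := (hD _ hdJ).exists_on b rfl
      set r := k + 1 - (n + 1) with hrdef
      set c := (phi F).coeff r / (phi G).coeff r with hcdef
      have hGc : (phi G).coeff r ≠ 0 := by
        rw [← g3]
        exact coeff_natTrailingDegree_ne g2
      obtain ⟨G1, hG1, k1, k2⟩ := ih (F - c • G)
        (Ideal.sub_mem _ hF (by
          rw [smul_eq_C_mul]
          exact Ideal.mul_mem_left _ _ (hIJ G hG))) (hH.sub (g1.smul c)) (by
          intro m hm
          rw [map_sub, map_smul, Polynomial.coeff_sub, Polynomial.coeff_smul, smul_eq_mul]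
          by_cases hm2 : m = r
          · rw [hm2, hcdef, div_mul_cancel₀ _ hGc, sub_self]
          · have hm3 : m < r := by omega
            rw [h0 m hm3, Polynomial.coeff_eq_zero_of_lt_natTrailingDegree (by omega), mul_zero,
              sub_zero]) hIJ
      refine ⟨G1 + c • G, Ideal.add_mem _ hG1 (by
          rw [smul_eq_C_mul]
          exact Ideal.mul_mem_left _ _ hG), k1.add (g1.smul c), ?_⟩
      rw [map_add, k2, map_sub, sub_add_cancel]

theorem le_of_dat {I J : DeltaIdeal} (hIJ : I.le J) (hI : I.ContainsSecant)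
    (hD : ∀ x, Dat J x → Dat I x) : J.le I := by
  classical
  intro ι _ _ V _ f hf
  have := Fintype.ofFinite ι
  have := Fintype.ofFinite (∀ i, V i)
  by_contra hfI
  -- a homogeneous component
  obtain ⟨k, hk⟩ : ∃ k, homogeneousComponent k f ∉ I.ideal ι V := by
    by_contra h
    push Not at h
    apply hfI
    rw [← sum_homogeneousComponent f]
    exact Ideal.sum_mem _ fun k _ => h k
  obtain ⟨g, hg, g1, g2, g3⟩ := exists_perp ((I.ideal ι V).restrictScalars ℂ)
    ((J.ideal ι V).restrictScalars ℂ) (fun x hx => hIJ ι V hx) (fun x hx m => I.homog ι V x m hx) k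
    (homogeneousComponent k f) (J.homog ι V f k hf) (homogeneousComponent_isHomogeneous k f) hk
  -- `g` does not vanish on sums of two pure tensors
  have hgS : ¬ ∀ a b : ∀ i, V i → ℂ,
      eval (fun α => ∏ᶠ i, a i (α i) + ∏ᶠ i, b i (α i)) g = 0 := by
    intro h
    exact g2 (fis_self g (g3 g (hI ι V g h)))
  push Not at hgS
  obtain ⟨a, b, hab⟩ := hgS
  let A : ∀ i, Fin 2 → V i → ℂ := fun i => ![a i, b i]
  -- the submodule `Q`
  let Q : Submodule ℂ (MvPolynomial (ι → Fin 2) ℂ) :=
    { carrier := {h | h ∈ J.ideal ι (fun _ => Fin 2) ∧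
        ∀ q ∈ I.ideal ι (fun _ => Fin 2), fis h q = 0}
      add_mem' := by
        rintro x y ⟨hx1, hx2⟩ ⟨hy1, hy2⟩
        refine ⟨Ideal.add_mem _ hx1 hy1, fun q hq => ?_⟩
        rw [fis_add_left, hx2 q hq, hy2 q hq, add_zero]
      zero_mem' := ⟨Ideal.zero_mem _, fun q _ => fis_zero_left q⟩
      smul_mem' := by
        rintro c x ⟨hx1, hx2⟩
        refine ⟨?_, fun q hq => ?_⟩
        · rw [smul_eq_C_mul]
          exact Ideal.mul_mem_left _ _ hx1
        · rw [fis_smul_left, hx2 q hq, mul_zero] }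
  have hgQ : lmap (V' := fun _ => Fin 2) A g ∈ Q := by
    refine ⟨J.linear ι V (fun _ => Fin 2) A g hg, fun q hq => ?_⟩
    rw [fis_lmap]
    exact g3 _ (I.linear ι (fun _ => Fin 2) V _ q hq)
  have hQ : ∀ (B : ι → Fin 2 → Fin 2 → ℂ), ∀ f ∈ Q, lmap (V := fun _ => Fin 2)
      (V' := fun _ => Fin 2) B f ∈ Q := by
    rintro B f ⟨hf1, hf2⟩
    refine ⟨J.linear ι (fun _ => Fin 2) (fun _ => Fin 2) B f hf1, fun q hq => ?_⟩
    rw [fis_lmap]
    exact hf2 _ (I.linear ι (fun _ => Fin 2) (fun _ => Fin 2) _ q hq)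
  have hhom : (lmap (V' := fun _ => Fin 2) A g).IsHomogeneous k := by
    rw [lmap, ← one_mul k]
    apply g1.aeval
    intro α
    rw [finsum_eq_sum_of_fintype]
    apply IsHomogeneous.sum
    intro β _
    rw [← zero_add 1]
    exact (isHomogeneous_C _ _).mul (isHomogeneous_X _ _)
  have hne : lmap (V' := fun _ => Fin 2) A g ≠ 0 := by
    intro h0
    apply hab
    have h1 := congrArg (eval (fun β : ι → Fin 2 =>
      (if β = 0 then (1:ℂ) else 0) + (if β = 1 then 1 else 0))) h0
    rw [map_zero] at h1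
    rw [← h1]
    have e1 : ((aeval (fun β : ι → Fin 2 =>
        (if β = 0 then (1:ℂ) else 0) + (if β = 1 then 1 else 0))).comp
        (lmap (V' := fun _ => Fin 2) A)) =
        aeval (fun α : ∀ i, V i => ∏ᶠ i, a i (α i) + ∏ᶠ i, b i (α i)) := by
      apply MvPolynomial.algHom_ext
      intro α
      rw [AlgHom.comp_apply, aeval_X, lmap, aeval_X, finsum_eq_sum_of_fintype, map_sum]
      simp_rw [map_mul, aeval_X, mul_add, Finset.sum_add_distrib, mul_ite, mul_one, mul_zero]
      rw [Finset.sum_ite_eq', Finset.sum_ite_eq', if_pos (Finset.mem_univ _),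
        if_pos (Finset.mem_univ _)]
      rw [aeval_C, aeval_C]
      rfl
    exact (DFunLike.congr_fun e1 g).symm
  obtain ⟨g', hg', n1, c, hc⟩ := exists_hw Q hQ k _ hgQ hhom hne
  obtain ⟨G, hG, G1, G2⟩ := exists_same_phi hD (k + 1) g' hg'.1 hc (by intro m hm; omega)
    (fun q hq => hIJ ι (fun _ => Fin 2) hq)
  have h0 : g' - G ∈ I.ideal ι (fun _ => Fin 2) := by
    apply hI
    intro u v
    simp_rw [finprod_eq_prod_of_fintype]
    apply eval_eq_zero_of_phi (hc.sub G1)
    rw [map_sub, G2, sub_self]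
  have h1 : g' ∈ I.ideal ι (fun _ => Fin 2) := by
    have := Ideal.add_mem _ h0 hG
    rwa [sub_add_cancel] at this
  exact n1 (fis_self g' (hg'.2 g' h1))

/-- The ascending chain condition. -/
theorem acc (I : ℕ → DeltaIdeal) (hmono : ∀ n, (I n).le (I (n + 1)))
    (h0 : (I 0).ContainsSecant) : ∃ N, ∀ m, N ≤ m → (I m).le (I N) := by
  classical
  have hle : ∀ n m, n ≤ m → (I n).le (I m) := by
    intro n m h
    induction m, h using Nat.le_induction with
    | base => exact fun _ _ _ _ _ => le_refl _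
    | succ m _ ih => exact fun ι _ _ V _ => le_trans (ih ι V) (hmono m ι V)
  have hS : ∀ n, (I n).ContainsSecant := fun n ι _ _ V _ f hf => hle 0 n (Nat.zero_le n) ι V
    (h0 ι V f hf)
  suffices h : ∃ N, ∀ m, N ≤ m → ∀ x, Dat (I m) x → Dat (I N) x by
    obtain ⟨N, hN⟩ := h
    exact ⟨N, fun m hm => le_of_dat (hle N m hm) (hS N) (hN m hm)⟩
  by_contra hcon
  push Not at hcon
  choose f hf x hx1 hx2 using hcon
  -- the indices
  let n : ℕ → ℕ := fun t => Nat.rec 0 (fun _ a => f a) t
  have hn : ∀ t, n (t + 1) = f (n t) := fun t => rfl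
  have hnm : Monotone n := monotone_nat_of_le_succ fun t => by rw [hn]; exact hf _
  obtain ⟨i, j, hij, hr⟩ := wqo (fun t => x (n t)) (fun t => (hx1 (n t)).valid)
  apply hx2 (n j)
  have h1 : Dat (I (n j)) (x (n i)) := by
    have h2 : Dat (I (n (i + 1))) (x (n i)) := hx1 (n i)
    exact h2.mono (hle _ _ (hnm hij))
  exact h1.reach hr

end

end Pool.Agent.Helper77.DI
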