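import Pool.Agent.Helper77.DI.Scale

/-!
Insertion of columns in Delta-ideals.
-/

namespace Pool.Agent.Helper77.DI

open MvPolynomial

noncomputable section

/-- The regrouping bijection. -/
def regroup {ι κ : Type} (π : ι → κ) :
    (∀ j : κ, ∀ _ : {i : ι // π i = j}, Fin 2) ≃ (ι → Fin 2) where
  toFun β i := β (π i) ⟨i, rfl⟩
  invFun δ _ i := δ i.1
  left_inv β := by
    funext j i
    obtain ⟨i, hi⟩ := i
    subst hi
    rfl
  right_inv _ := rfl

theorem mem_regroup (I : DeltaIdeal) {ι κ : Type} [Fintype ι] [DecidableEq ι] [Nonempty ι]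
    [Fintype κ] [Nonempty κ]
    (π : ι → κ) (hπ : Function.Surjective π)
    (w : ∀ j : κ, (∀ _ : {i : ι // π i = j}, Fin 2) → Fin 2 → ℂ)
    (F : MvPolynomial (κ → Fin 2) ℂ) (hF : F ∈ I.ideal κ (fun _ => Fin 2)) :
    aeval (fun α : κ → Fin 2 => ∑ δ : ι → Fin 2,
      C (∏ j, w j (fun i => δ i.1) (α j)) * X δ) F ∈ I.ideal ι (fun _ => Fin 2) := by
  classical
  have h1 := I.linear κ (fun _ => Fin 2) (fun j => ∀ _ : {i : ι // π i = j}, Fin 2) w F hF
  have h2 := I.merge ι κ π hπ (fun _ => Fin 2) _ h1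
  convert h2 using 1
  rw [← AlgHom.comp_apply]
  congr 1
  apply MvPolynomial.algHom_ext
  intro α
  rw [AlgHom.comp_apply, lmap, aeval_X, aeval_X, finsum_eq_sum_of_fintype, map_sum]
  rw [← Equiv.sum_comp (regroup π)]
  apply Finset.sum_congr rfl
  intro β _
  rw [map_mul, rename_C, rename_X, finprod_eq_prod_of_fintype]
  have h3 : ∀ j, (fun i : {i : ι // π i = j} => (regroup π) β i.1) = β j := by
    intro j
    exact congrFun ((regroup π).left_inv β) j
  simp_rw [h3]
  rfl

/-- Insertion of the columns `μ` with the tensor `v`. -/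
def ins {κ μ : Type} [Fintype μ] [DecidableEq μ] (v : (μ → Fin 2) → ℂ) :
    MvPolynomial (κ → Fin 2) ℂ →ₐ[ℂ] MvPolynomial (κ ⊕ μ → Fin 2) ℂ :=
  aeval fun α => ∑ γ : μ → Fin 2, C (v γ) * X (Sum.elim α γ)

theorem mem_ins (I : DeltaIdeal) {κ μ : Type} [Fintype κ] [DecidableEq κ] [Nonempty κ]
    [Fintype μ] [DecidableEq μ] (v : (μ → Fin 2) → ℂ)
    (F : MvPolynomial (κ → Fin 2) ℂ) (hF : F ∈ I.ideal κ (fun _ => Fin 2)) :
    ins v F ∈ I.ideal (κ ⊕ μ) (fun _ => Fin 2) := by
  classical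
  obtain ⟨j0⟩ := ‹Nonempty κ›
  have : Nonempty κ := ⟨j0⟩
  have hπ : Function.Surjective (Sum.elim id (fun _ : μ => j0) : κ ⊕ μ → κ) :=
    fun j => ⟨Sum.inl j, rfl⟩
  have h := mem_regroup I (Sum.elim id (fun _ : μ => j0)) hπ
    (fun j β c => (if β ⟨Sum.inl j, rfl⟩ = c then 1 else 0) *
      (if h : j = j0 then v (fun γ => β ⟨Sum.inr γ, h.symm⟩) else 1)) F hF
  convert h using 1
  rw [ins]
  congr 2
  funext α
  have e : ∀ δ : κ ⊕ μ → Fin 2,
      (∏ j, ((if δ (Sum.inl j) = α j then (1 : ℂ) else 0) *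
        (if _ : j = j0 then v (fun γ => δ (Sum.inr γ)) else 1))) =
      if (fun j => δ (Sum.inl j)) = α then v (fun γ => δ (Sum.inr γ)) else 0 := by
    intro δ
    rw [Finset.prod_mul_distrib]
    have h1 : (∏ j, (if _ : j = j0 then v (fun γ => δ (Sum.inr γ)) else (1 : ℂ))) =
        v (fun γ => δ (Sum.inr γ)) := by
      rw [Finset.prod_eq_single j0]
      · simp
      · intro j _ hj
        rw [dif_neg hj]
      · intro h
        exact absurd (Finset.mem_univ _) h
    rw [h1, Finset.prod_ite_zero]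
    simp only [Finset.prod_const_one, Finset.mem_univ, forall_const]
    by_cases hh : (fun j => δ (Sum.inl j)) = α
    · rw [if_pos hh, if_pos (fun j => congrFun hh j), one_mul]
    · rw [if_neg hh, if_neg (fun h => hh (funext h)), zero_mul]
  simp_rw [e]
  rw [← Equiv.sum_comp (Equiv.sumArrowEquivProdArrow κ μ (Fin 2)).symm, Fintype.sum_prod_type]
  rw [Finset.sum_eq_single α]
  · apply Finset.sum_congr rfl
    intro γ _
    simp [Equiv.sumArrowEquivProdArrow]
  · intro α' _ hne
    apply Finset.sum_eq_zero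
    intro γ _
    simp [Equiv.sumArrowEquivProdArrow, hne]
  · intro h
    exact absurd (Finset.mem_univ _) h

/-- Relabelling the columns. -/
def relabel {ι ι' : Type} (e : ι ≃ ι') :
    MvPolynomial (ι → Fin 2) ℂ →ₐ[ℂ] MvPolynomial (ι' → Fin 2) ℂ :=
  rename fun α => fun i => α (e.symm i)

theorem mem_relabel (I : DeltaIdeal) {ι ι' : Type} [Fintype ι] [DecidableEq ι] [Nonempty ι]
    [Fintype ι'] [DecidableEq ι'] [Nonempty ι'] (e : ι ≃ ι')
    (F : MvPolynomial (ι → Fin 2) ℂ) (hF : F ∈ I.ideal ι (fun _ => Fin 2)) :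
    relabel e F ∈ I.ideal ι' (fun _ => Fin 2) := by
  classical
  have h := mem_regroup I e.symm e.symm.surjective
    (fun j β c => (if β ⟨e j, e.symm_apply_apply j⟩ = c then 1 else 0)) F hF
  convert h using 1
  congr 1
  apply MvPolynomial.algHom_ext
  intro α
  rw [relabel, rename_X, aeval_X]
  simp only [Finset.prod_ite_zero, Finset.prod_const_one, Finset.mem_univ, forall_const]
  rw [Finset.sum_eq_single (fun i => α (e.symm i))]
  · simp
  · intro δ _ hne
    rw [if_neg, C_0, zero_mul]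
    intro h
    apply hne
    funext i
    have := h (e.symm i)
    rwa [e.apply_symm_apply] at this
  · intro h
    exact absurd (Finset.mem_univ _) h

end

end Pool.Agent.Helper77.DI
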