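import Pool.Agent.Helper77.DI.Ins

/-!
The differential operator used for pair insertion.
-/

namespace Pool.Agent.Helper77.DI

open MvPolynomial

noncomputable section

theorem pderiv_swap {A σ : Type} [CommRing A] (i j : σ) (p : MvPolynomial σ A) :
    pderiv i (pderiv j p) = pderiv j (pderiv i p) := by
  classical
  ext m
  rw [coeff_pderiv, coeff_pderiv, coeff_pderiv, coeff_pderiv]
  by_cases h : i = j
  · rw [h]
  · rw [add_right_comm m]
    simp only [Finsupp.add_apply, Finsupp.single_apply, if_neg h, if_neg (Ne.symm h), add_zero]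
    ring

/-- `∂00 ∂11 - ∂01 ∂10` -/
def Om {A : Type} [CommRing A] (G : MvPolynomial (Fin 2 → Fin 2) A) :
    MvPolynomial (Fin 2 → Fin 2) A :=
  pderiv ![0, 0] (pderiv ![1, 1] G) - pderiv ![0, 1] (pderiv ![1, 0] G)

/-- The value of `∂00 ^ n (∂00 ∂11 - ∂01 ∂10) ^ l G` at `0`. -/
def Lam {A : Type} [CommRing A] (n l : ℕ) (G : MvPolynomial (Fin 2 → Fin 2) A) : A :=
  constantCoeff ((pderiv ![0, 0])^[n] (Om^[l] G))

section

variable {A B : Type} [CommRing A] [CommRing B]

theorem Om_add (G H : MvPolynomial (Fin 2 → Fin 2) A) : Om (G + H) = Om G + Om H := by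
  simp only [Om, map_add]
  ring

theorem Om_C_mul (a : A) (G : MvPolynomial (Fin 2 → Fin 2) A) : Om (C a * G) = C a * Om G := by
  simp only [Om, pderiv_C_mul]
  ring

theorem Om_map (f : A →+* B) (G : MvPolynomial (Fin 2 → Fin 2) A) :
    Om (map f G) = map f (Om G) := by
  simp only [Om, pderiv_map, map_sub]

theorem Om_iter_add (l : ℕ) (G H : MvPolynomial (Fin 2 → Fin 2) A) :
    Om^[l] (G + H) = Om^[l] G + Om^[l] H := by
  induction l generalizing G H with
  | zero => rfl
  | succ l ih => rw [Function.iterate_succ_apply, Function.iterate_succ_apply,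
      Function.iterate_succ_apply, Om_add, ih]

theorem Om_iter_C_mul (l : ℕ) (a : A) (G : MvPolynomial (Fin 2 → Fin 2) A) :
    Om^[l] (C a * G) = C a * Om^[l] G := by
  induction l generalizing G with
  | zero => rfl
  | succ l ih => rw [Function.iterate_succ_apply, Function.iterate_succ_apply, Om_C_mul, ih]

theorem Om_iter_map (l : ℕ) (f : A →+* B) (G : MvPolynomial (Fin 2 → Fin 2) A) :
    Om^[l] (map f G) = map f (Om^[l] G) := by
  induction l generalizing G with
  | zero => rfl
  | succ l ih => rw [Function.iterate_succ_apply, Function.iterate_succ_apply, Om_map, ih]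

theorem pd_iter_add (n : ℕ) (γ : Fin 2 → Fin 2) (G H : MvPolynomial (Fin 2 → Fin 2) A) :
    (pderiv γ)^[n] (G + H) = (pderiv γ)^[n] G + (pderiv γ)^[n] H := by
  induction n generalizing G H with
  | zero => rfl
  | succ n ih => rw [Function.iterate_succ_apply, Function.iterate_succ_apply,
      Function.iterate_succ_apply, map_add, ih]

theorem pd_iter_C_mul (n : ℕ) (γ : Fin 2 → Fin 2) (a : A)
    (G : MvPolynomial (Fin 2 → Fin 2) A) :
    (pderiv γ)^[n] (C a * G) = C a * (pderiv γ)^[n] G := by
  induction n generalizing G with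
  | zero => rfl
  | succ n ih => rw [Function.iterate_succ_apply, Function.iterate_succ_apply, pderiv_C_mul, ih]

theorem pd_iter_map (n : ℕ) (γ : Fin 2 → Fin 2) (f : A →+* B)
    (G : MvPolynomial (Fin 2 → Fin 2) A) :
    (pderiv γ)^[n] (map f G) = map f ((pderiv γ)^[n] G) := by
  induction n generalizing G with
  | zero => rfl
  | succ n ih => rw [Function.iterate_succ_apply, Function.iterate_succ_apply, pderiv_map, ih]

theorem Lam_add (n l : ℕ) (G H : MvPolynomial (Fin 2 → Fin 2) A) :
    Lam n l (G + H) = Lam n l G + Lam n l H := by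
  rw [Lam, Lam, Lam, Om_iter_add, pd_iter_add, map_add]

theorem Lam_C_mul (n l : ℕ) (a : A) (G : MvPolynomial (Fin 2 → Fin 2) A) :
    Lam n l (C a * G) = a * Lam n l G := by
  rw [Lam, Lam, Om_iter_C_mul, pd_iter_C_mul, map_mul, constantCoeff_C]

theorem Lam_zero (n l : ℕ) : Lam n l (0 : MvPolynomial (Fin 2 → Fin 2) A) = 0 := by
  have := Lam_C_mul n l (0 : A) 0
  rwa [C_0, zero_mul, zero_mul] at this

theorem Lam_sum {s : Type} (t : Finset s) (n l : ℕ)
    (G : s → MvPolynomial (Fin 2 → Fin 2) A) :
    Lam n l (∑ x ∈ t, G x) = ∑ x ∈ t, Lam n l (G x) := by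
  classical
  induction t using Finset.induction_on with
  | empty => rw [Finset.sum_empty, Finset.sum_empty, Lam_zero]
  | insert a t ha ih => rw [Finset.sum_insert ha, Finset.sum_insert ha, Lam_add, ih]

theorem Lam_map (n l : ℕ) (f : A →+* B) (G : MvPolynomial (Fin 2 → Fin 2) A) :
    Lam n l (map f G) = f (Lam n l G) := by
  rw [Lam, Lam, Om_iter_map, pd_iter_map, constantCoeff_map]

/-- chain rule -/
theorem chain {σ : Type} (s : MvPolynomial σ A →ₐ[A] MvPolynomial σ A)
    (D E : Derivation A (MvPolynomial σ A) (MvPolynomial σ A))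
    (h : ∀ γ, D (s (X γ)) = s (E (X γ))) (G : MvPolynomial σ A) : D (s G) = s (E G) := by
  induction G using MvPolynomial.induction_on with
  | C a =>
    have h1 : s (C a) = C a := s.commutes a
    have h2 : (C a : MvPolynomial σ A) = algebraMap A _ a := rfl
    rw [h1, h2, D.map_algebraMap, E.map_algebraMap, map_zero]
  | add p q hp hq => rw [map_add, map_add, map_add, map_add, hp, hq]
  | mul_X p i hp =>
    rw [map_mul, D.leibniz, E.leibniz, hp, h, map_add]
    simp only [smul_eq_mul, map_mul]

/-- A substitution for which the operators behave well. -/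
theorem Lam_of_chain (s : MvPolynomial (Fin 2 → Fin 2) A →ₐ[A] MvPolynomial (Fin 2 → Fin 2) A)
    (c : A) (h0 : ∀ G, pderiv ![0, 0] (s G) = s (pderiv ![0, 0] G))
    (h1 : ∀ G, Om (s G) = C c * s (Om G)) (h2 : ∀ γ, constantCoeff (s (X γ)) = 0)
    (n l : ℕ) (G : MvPolynomial (Fin 2 → Fin 2) A) :
    Lam n l (s G) = c ^ l * Lam n l G := by
  have e1 : ∀ (l : ℕ) (G : MvPolynomial (Fin 2 → Fin 2) A),
      Om^[l] (s G) = C (c ^ l) * s (Om^[l] G) := by
    intro l
    induction l with
    | zero => intro G; simp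
    | succ l ih =>
      intro G
      rw [Function.iterate_succ_apply, Function.iterate_succ_apply, h1, Om_iter_C_mul, ih,
        pow_succ, C_mul]
      ring
  have e2 : ∀ (n : ℕ) (G : MvPolynomial (Fin 2 → Fin 2) A),
      (pderiv ![0, 0])^[n] (s G) = s ((pderiv ![0, 0])^[n] G) := by
    intro n
    induction n with
    | zero => intro G; rfl
    | succ n ih =>
      intro G
      rw [Function.iterate_succ_apply, Function.iterate_succ_apply, h0, ih]
  have e3 : ∀ G : MvPolynomial (Fin 2 → Fin 2) A, constantCoeff (s G) = constantCoeff G := by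
    intro G
    induction G using MvPolynomial.induction_on with
    | C a =>
      have h1 : s (C a) = C a := s.commutes a
      rw [h1]
    | add p q hp hq => rw [map_add, map_add, map_add, hp, hq]
    | mul_X p i hp => rw [map_mul, map_mul, map_mul, h2, constantCoeff_X, mul_zero, mul_zero]
  rw [Lam, Lam, e1, pd_iter_C_mul, e2, map_mul, constantCoeff_C, e3]

end

end

end Pool.Agent.Helper77.DI
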