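import Pool.Agent.Helper77.DI.Lam

/-!
Invariance properties of the operator `Lam`.
-/

namespace Pool.Agent.Helper77.DI

open MvPolynomial

noncomputable section

theorem forall4 {p : (Fin 2 → Fin 2) → Prop} (h00 : p ![0, 0]) (h01 : p ![0, 1])
    (h10 : p ![1, 0]) (h11 : p ![1, 1]) (γ : Fin 2 → Fin 2) : p γ := by
  have h : γ = ![γ 0, γ 1] := by
    funext i
    fin_cases i <;> rfl
  rw [h]
  generalize γ 0 = a
  generalize γ 1 = b
  fin_cases a <;> fin_cases b <;> assumption

section

variable {A : Type} [CommRing A]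

theorem pdX (δ γ : Fin 2 → Fin 2) :
    pderiv δ (X γ : MvPolynomial (Fin 2 → Fin 2) A) = if γ = δ then 1 else 0 := by
  rw [pderiv_X, Pi.single_apply]

/-- scaling of the letter `1` in position `c` -/
def scal (c : Fin 2) (t : A) :
    MvPolynomial (Fin 2 → Fin 2) A →ₐ[A] MvPolynomial (Fin 2 → Fin 2) A :=
  aeval fun γ => if γ c = 1 then C t * X γ else X γ

/-- the unipotent substitution in position `c` -/
def unip (c : Fin 2) (τ : A) :
    MvPolynomial (Fin 2 → Fin 2) A →ₐ[A] MvPolynomial (Fin 2 → Fin 2) A :=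
  aeval fun γ => if γ c = 0 then X γ + C τ * X (Function.update γ c 1) else X γ

theorem scal_X (c : Fin 2) (t : A) (γ : Fin 2 → Fin 2) :
    scal c t (X γ) = if γ c = 1 then C t * X γ else X γ := by
  rw [scal, aeval_X]

theorem unip_X (c : Fin 2) (t : A) (γ : Fin 2 → Fin 2) :
    unip c t (X γ) = if γ c = 0 then X γ + C t * X (Function.update γ c 1) else X γ := by
  rw [unip, aeval_X]

theorem scal_pd (c : Fin 2) (t : A) (δ : Fin 2 → Fin 2) (G : MvPolynomial (Fin 2 → Fin 2) A) :
    pderiv δ (scal c t G) = (if δ c = 1 then C t else 1) * scal c t (pderiv δ G) := by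
  have h := chain (scal c t) (pderiv δ) ((if δ c = 1 then t else 1) • pderiv δ) (by
    intro γ
    rw [Derivation.smul_apply, pdX, scal_X]
    by_cases h : γ = δ
    · subst h
      by_cases h2 : γ c = 1
      · simp only [h2, if_true, pderiv_C_mul, pdX, mul_one, smul_eq_C_mul]
        exact ((scal c t).commutes t).symm
      · simp only [h2, if_true, if_false, pdX, one_smul, map_one]
    · by_cases h2 : γ c = 1
      · simp only [h2, h, if_true, if_false, pderiv_C_mul, pdX, mul_zero, smul_zero, map_zero]
      · simp only [h2, h, if_false, pdX, smul_zero, map_zero]) G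
  rw [h, Derivation.smul_apply, map_smul]
  split_ifs
  · rw [smul_eq_C_mul]
  · rw [one_smul, one_mul]

theorem unip_pd0 (c : Fin 2) (t : A) (δ : Fin 2 → Fin 2) (hδ : δ c = 0)
    (G : MvPolynomial (Fin 2 → Fin 2) A) :
    pderiv δ (unip c t G) = unip c t (pderiv δ G) := by
  apply chain
  intro γ
  rw [pdX, unip_X]
  have h3 : Function.update γ c 1 ≠ δ := by
    intro h
    rw [← h, Function.update_self] at hδ
    exact one_ne_zero hδ
  by_cases h : γ = δ
  · subst h
    simp only [hδ, if_true, map_add, pderiv_C_mul, pdX, h3, if_false, mul_zero, add_zero, map_one]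
  · by_cases h2 : γ c = 0
    · simp only [h2, h, if_true, if_false, map_add, pderiv_C_mul, pdX, h3, mul_zero, add_zero,
        map_zero]
    · simp only [h2, h, if_false, pdX, map_zero]

theorem unip_pd1 (c : Fin 2) (t : A) (δ : Fin 2 → Fin 2) (hδ : δ c = 1)
    (G : MvPolynomial (Fin 2 → Fin 2) A) :
    pderiv δ (unip c t G) = unip c t (pderiv δ G) +
      C t * unip c t (pderiv (Function.update δ c 0) G) := by
  have h := chain (unip c t) (pderiv δ) (pderiv δ + t • pderiv (Function.update δ c 0)) (by
    intro γ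
    rw [Derivation.add_apply, Derivation.smul_apply, pdX, pdX, unip_X]
    by_cases h2 : γ c = 0
    · have h : γ ≠ δ := by
        rintro rfl
        rw [h2] at hδ
        exact zero_ne_one hδ
      rw [if_pos h2, map_add, pderiv_C_mul, pdX, pdX, if_neg h, zero_add, zero_add]
      by_cases h4 : γ = Function.update δ c 0
      · have h5 : Function.update γ c 1 = δ := by
          rw [h4, Function.update_idem]
          rw [← hδ, Function.update_eq_self]
        rw [if_pos h4, if_pos h5, mul_one, smul_eq_C_mul, mul_one]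
        exact ((unip c t).commutes t).symm
      · have h5 : Function.update γ c 1 ≠ δ := by
          intro h
          apply h4
          rw [← h, Function.update_idem, ← h2, Function.update_eq_self]
        rw [if_neg h4, if_neg h5, mul_zero, smul_zero, map_zero]
    · have h4 : γ ≠ Function.update δ c 0 := by
        intro h
        apply h2
        rw [h, Function.update_self]
      rw [if_neg h2, if_neg h4, pdX, smul_zero, add_zero]
      split_ifs <;> simp) G
  rw [h, Derivation.add_apply, Derivation.smul_apply, map_add, map_smul, smul_eq_C_mul]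

theorem Lam_scal (c : Fin 2) (t : A) (n l : ℕ) (G : MvPolynomial (Fin 2 → Fin 2) A) :
    Lam n l (scal c t G) = t ^ l * Lam n l G := by
  apply Lam_of_chain
  · intro G
    rw [scal_pd]
    have : (![0, 0] : Fin 2 → Fin 2) c ≠ 1 := by fin_cases c <;> decide
    rw [if_neg this, one_mul]
  · intro G
    rw [Om, Om, scal_pd, scal_pd, pderiv_mul, pderiv_mul, scal_pd, scal_pd, map_sub]
    fin_cases c <;> simp <;> ring
  · intro γ
    rw [scal_X]
    split_ifs <;> simp

theorem Lam_unip (c : Fin 2) (t : A) (n l : ℕ) (G : MvPolynomial (Fin 2 → Fin 2) A) :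
    Lam n l (unip c t G) = Lam n l G := by
  have h := Lam_of_chain (unip c t) 1 ?_ ?_ ?_ n l G
  · rwa [one_pow, one_mul] at h
  · intro G
    apply unip_pd0
    fin_cases c <;> rfl
  · intro G
    rw [Om, Om, C_1, one_mul, unip_pd1 c t ![1, 1] (by fin_cases c <;> rfl)]
    fin_cases c
    · rw [unip_pd1 (⟨0, by norm_num⟩ : Fin 2) t ![1, 0] rfl]
      simp only [map_add, pderiv_C_mul, map_sub]
      have e1 : Function.update (![1, 1] : Fin 2 → Fin 2) ⟨0, by norm_num⟩ 0 = ![0, 1] := by decide
      have e2 : Function.update (![1, 0] : Fin 2 → Fin 2) ⟨0, by norm_num⟩ 0 = ![0, 0] := by decide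
      rw [e1, e2, unip_pd0 _ t ![0, 0] rfl, unip_pd0 _ t ![0, 0] rfl, unip_pd0 _ t ![0, 1] rfl,
        unip_pd0 _ t ![0, 1] rfl, pderiv_swap ![0, 0] ![0, 1]]
      ring
    · rw [unip_pd0 (⟨1, by norm_num⟩ : Fin 2) t ![1, 0] rfl]
      simp only [map_add, pderiv_C_mul, map_sub]
      have e1 : Function.update (![1, 1] : Fin 2 → Fin 2) ⟨1, by norm_num⟩ 0 = ![1, 0] := by decide
      have e2 : Function.update (![0, 1] : Fin 2 → Fin 2) ⟨1, by norm_num⟩ 0 = ![0, 0] := by decide
      rw [unip_pd1 (⟨1, by norm_num⟩ : Fin 2) t ![0, 1] rfl, e1, e2,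
        unip_pd0 _ t ![0, 0] rfl, unip_pd0 _ t ![0, 0] rfl]
      ring
  · intro γ
    rw [unip_X]
    split_ifs <;> simp

end

end

end Pool.Agent.Helper77.DI
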