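import Pool.Agent.Helper77.DI.Lam2

/-!
Pair insertion.
-/

namespace Pool.Agent.Helper77.DI

open MvPolynomial

noncomputable section

section

variable {A : Type} [CommRing A]

/-- the sum of the variables -/
def SS (A : Type) [CommRing A] : MvPolynomial (Fin 2 → Fin 2) A := ∑ γ : Fin 2 → Fin 2, X γ

theorem pd_SS (δ : Fin 2 → Fin 2) : pderiv δ (SS A) = 1 := by
  rw [SS, map_sum]
  simp_rw [pdX]
  simp

theorem pd_mono (δ : Fin 2 → Fin 2) (hδ : δ ≠ ![0, 0]) (a b : ℕ) :
    pderiv δ (SS A ^ a * X ![0, 0] ^ b) = C (a : A) * (SS A ^ (a - 1) * X ![0, 0] ^ b) := by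
  rw [pderiv_mul, pderiv_pow, pderiv_pow, pd_SS, pdX, if_neg (Ne.symm hδ)]
  rw [map_natCast]
  ring

theorem pd_mono0 (a b : ℕ) :
    pderiv ![0, 0] (SS A ^ a * X ![0, 0] ^ b) = C (a : A) * (SS A ^ (a - 1) * X ![0, 0] ^ b) +
      C (b : A) * (SS A ^ a * X ![0, 0] ^ (b - 1)) := by
  rw [pderiv_mul, pderiv_pow, pderiv_pow, pd_SS, pdX, if_pos rfl]
  rw [map_natCast, map_natCast]
  ring

theorem Om_mono (a b : ℕ) :
    Om (SS A ^ a * X ![0, 0] ^ b) = C ((a * b : ℕ) : A) * (SS A ^ (a - 1) * X ![0, 0] ^ (b - 1)) := by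
  rw [Om, pd_mono _ (by decide), pd_mono _ (by decide), pderiv_C_mul, pderiv_C_mul, pd_mono0,
    pd_mono _ (by decide), Nat.cast_mul, C_mul]
  ring

theorem Om_iter_mono (l a b : ℕ) :
    Om^[l] (SS A ^ a * X ![0, 0] ^ b) = C ((a.descFactorial l * b.descFactorial l : ℕ) : A) *
      (SS A ^ (a - l) * X ![0, 0] ^ (b - l)) := by
  induction l with
  | zero => simp
  | succ l ih =>
    rw [Function.iterate_succ_apply', ih, Om_C_mul, Om_mono, Nat.descFactorial_succ,
      Nat.descFactorial_succ, Nat.sub_sub, Nat.sub_sub, ← mul_assoc, ← C_mul, ← Nat.cast_mul]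
    congr 3
    ring

theorem pd_iter_mono (n a b : ℕ) (h : a + b = n) :
    constantCoeff ((pderiv ![0, 0])^[n] (SS A ^ a * X ![0, 0] ^ b)) = (n.factorial : A) := by
  induction n generalizing a b with
  | zero =>
    have ha : a = 0 := by omega
    have hb : b = 0 := by omega
    subst ha hb
    simp
  | succ n ih =>
    rw [Function.iterate_succ_apply, pd_mono0, pd_iter_add, pd_iter_C_mul, pd_iter_C_mul,
      map_add, map_mul, map_mul, constantCoeff_C, constantCoeff_C]
    have h1 : (a : A) * constantCoeff ((pderiv ![0, 0])^[n] (SS A ^ (a - 1) * X ![0, 0] ^ b)) =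
        a * n.factorial := by
      rcases Nat.eq_zero_or_pos a with ha | ha
      · rw [ha]
        simp
      · rw [ih (a - 1) b (by omega)]
    have h2 : (b : A) * constantCoeff ((pderiv ![0, 0])^[n] (SS A ^ a * X ![0, 0] ^ (b - 1))) =
        b * n.factorial := by
      rcases Nat.eq_zero_or_pos b with hb | hb
      · rw [hb]
        simp
      · rw [ih a (b - 1) (by omega)]
    rw [h1, h2, Nat.factorial_succ, ← h]
    push_cast
    ring

theorem Lam_mono (n l a b : ℕ) (h : a + b = n + 2 * l) :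
    Lam n l (SS A ^ a * X ![0, 0] ^ b) =
      ((a.descFactorial l * b.descFactorial l * n.factorial : ℕ) : A) := by
  rw [Lam, Om_iter_mono, pd_iter_C_mul, map_mul, constantCoeff_C]
  by_cases ha : a < l
  · rw [Nat.descFactorial_eq_zero_iff_lt.mpr ha]
    simp
  by_cases hb : b < l
  · rw [Nat.descFactorial_eq_zero_iff_lt.mpr hb]
    simp
  rw [pd_iter_mono n _ _ (by omega)]
  push_cast
  ring

end

theorem mon_prod {ι B : Type} [CommRing B] [Finite ι] [DecidableEq (ι → Fin 2)] (x y : B)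
    (m : (ι → Fin 2) →₀ ℕ) :
    (m.prod fun α e => (if α = 0 then x + y else x) ^ e) =
      (x + y) ^ (m 0) * x ^ ((m.sum fun _ e => e) - m 0) := by
  classical
  have := Fintype.ofFinite ι
  rw [Finsupp.prod_fintype _ _ (fun _ => pow_zero _), Finsupp.sum_fintype _ _ (fun _ => rfl),
    ← Finset.mul_prod_erase Finset.univ _ (Finset.mem_univ 0), if_pos rfl,
    ← Finset.add_sum_erase Finset.univ _ (Finset.mem_univ (0 : ι → Fin 2)), Nat.add_sub_cancel_left,
    ← Finset.prod_pow_eq_pow_sum]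
  congr 1
  apply Finset.prod_congr rfl
  intro α hα
  rw [if_neg (Finset.ne_of_mem_erase hα)]

theorem binom_shift {B : Type} [CommRing B] (x y : B) (e n : ℕ) :
    ∑ r ∈ Finset.range (e + n + 1), ((if e ≤ r then (n.choose (r - e)) else 0 : ℕ) : B) *
      (x ^ r * y ^ (e + n - r)) = (x + y) ^ n * x ^ e := by
  rw [add_assoc, Finset.sum_range_add]
  have h1 : ∑ r ∈ Finset.range e, ((if e ≤ r then (n.choose (r - e)) else 0 : ℕ) : B) *
      (x ^ r * y ^ (e + n - r)) = 0 := by
    apply Finset.sum_eq_zero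
    intro r hr
    rw [if_neg (by have := Finset.mem_range.mp hr; omega)]
    simp
  rw [h1, zero_add, add_pow, Finset.sum_mul]
  apply Finset.sum_congr rfl
  intro j _
  rw [if_pos (by omega), Nat.add_sub_cancel_left, Nat.add_sub_add_left]
  ring

theorem hom_phi {ι B : Type} [CommRing B] [Algebra ℂ B] [Finite ι] [DecidableEq (ι → Fin 2)]
    (x y : B) (k : ℕ) (F : MvPolynomial (ι → Fin 2) ℂ) (hF : F.IsHomogeneous k) :
    aeval (fun α : ι → Fin 2 => if α = 0 then x + y else x) F =
      ∑ r ∈ Finset.range (k + 1), algebraMap ℂ B ((phi F).coeff r) * (x ^ r * y ^ (k - r)) := by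
  have key : ∀ m : (ι → Fin 2) →₀ ℕ, (m.sum fun _ e => e) = k → ∀ c : ℂ,
      aeval (fun α : ι → Fin 2 => if α = 0 then x + y else x) (monomial m c) =
      ∑ r ∈ Finset.range (k + 1),
        algebraMap ℂ B ((phi (monomial m c)).coeff r) * (x ^ r * y ^ (k - r)) := by
    intro m hm c
    have hle : m 0 ≤ k := by
      rw [← hm, Finsupp.sum]
      by_cases h0 : (0 : ι → Fin 2) ∈ m.support
      · exact Finset.single_le_sum (f := fun a => m a) (fun _ _ => Nat.zero_le _) h0
      · rw [Finsupp.notMem_support_iff.mp h0]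
        exact Nat.zero_le _
    obtain ⟨e, he⟩ : ∃ e, k = e + m 0 := ⟨k - m 0, by omega⟩
    have h1 : phi (monomial m c) =
        Polynomial.C c * ((Polynomial.X + 1) ^ (m 0) * Polynomial.X ^ e) := by
      rw [phi, aeval_monomial]
      have h2 := mon_prod (Polynomial.X : Polynomial ℂ) 1 m
      rw [hm] at h2
      have h3 : k - m 0 = e := by omega
      rw [h3] at h2
      rw [← h2]
      congr!
    have h4 : ∀ r, (phi (monomial m c)).coeff r =
        c * ((if e ≤ r then ((m 0).choose (r - e)) else 0 : ℕ) : ℂ) := by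
      intro r
      rw [h1, Polynomial.coeff_C_mul, Polynomial.coeff_mul_X_pow']
      congr 1
      split_ifs with h
      · rw [Polynomial.coeff_X_add_one_pow]
      · simp
    rw [aeval_monomial, mon_prod, hm, he, Nat.add_sub_cancel]
    simp_rw [h4, map_mul, map_natCast, mul_assoc]
    rw [← Finset.mul_sum, binom_shift]
  have h : F = ∑ m ∈ F.support, monomial m (coeff m F) := (support_sum_monomial_coeff F).symm
  have h5 : ∀ m ∈ F.support, (m.sum fun _ e => e) = k := by
    intro m hm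
    have := (isHomogeneous_iff_sum F k).mp hF m hm
    simpa using this
  conv_lhs => rw [h]
  rw [map_sum]
  have h6 : ∀ r, (phi F).coeff r = ∑ m ∈ F.support, (phi (monomial m (coeff m F))).coeff r := by
    intro r
    conv_lhs => rw [h]
    rw [map_sum, Polynomial.finsetSum_coeff]
  simp_rw [h6, map_sum, Finset.sum_mul]
  rw [Finset.sum_comm]
  apply Finset.sum_congr rfl
  intro m hm
  exact key m (h5 m hm) _

/-- the generic insertion of two columns -/
def gen {κ : Type} : MvPolynomial (κ → Fin 2) ℂ →ₐ[ℂ]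
    MvPolynomial (Fin 2 → Fin 2) (MvPolynomial (κ ⊕ Fin 2 → Fin 2) ℂ) :=
  aeval fun α => ∑ γ : Fin 2 → Fin 2, X γ * C (X (Sum.elim α γ))

theorem gen_X {κ : Type} (α : κ → Fin 2) :
    gen (X α) = ∑ γ : Fin 2 → Fin 2, X γ * C (X (Sum.elim α γ)) := by
  rw [gen, aeval_X]

theorem eq_zero_of_eval {A σ : Type} [CommRing A] [Algebra ℂ A] (G : MvPolynomial σ A)
    (h : ∀ v : σ → ℂ, eval (fun s => algebraMap ℂ A (v s)) G = 0) : G = 0 := by
  classical
  ext m
  rw [coeff_zero]
  rw [← Module.forall_dual_apply_eq_zero_iff ℂ]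
  intro lam
  have h1 : (∑ m ∈ G.support, monomial m (lam (coeff m G)) : MvPolynomial σ ℂ) = 0 := by
    apply MvPolynomial.funext
    intro v
    rw [map_sum, map_zero]
    have h2 := congrArg lam (h v)
    rw [eval_eq, map_sum, map_zero] at h2
    rw [← h2]
    apply Finset.sum_congr rfl
    intro m _
    rw [eval_monomial]
    have h3 : ∏ i ∈ m.support, (algebraMap ℂ A) (v i) ^ m i =
        algebraMap ℂ A (m.prod fun n e => v n ^ e) := by
      rw [Finsupp.prod, map_prod]
      apply Finset.prod_congr rfl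
      intro i _
      rw [map_pow]
    rw [h3, mul_comm (coeff m G), ← Algebra.smul_def, map_smul, smul_eq_mul, mul_comm]
  have h2 := congrArg (coeff m) h1
  rw [coeff_zero, coeff_sum] at h2
  simp_rw [coeff_monomial] at h2
  rw [Finset.sum_ite_eq'] at h2
  split_ifs at h2 with h3
  · exact h2
  · rw [notMem_support_iff.mp h3, map_zero]

/-- pair insertion -/
def pins {κ : Type} (n l : ℕ) (F : MvPolynomial (κ → Fin 2) ℂ) :
    MvPolynomial (κ ⊕ Fin 2 → Fin 2) ℂ := Lam n l (gen F)

theorem mem_pins (I : DeltaIdeal) {κ : Type} [Fintype κ] [DecidableEq κ] [Nonempty κ] (n l : ℕ)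
    (F : MvPolynomial (κ → Fin 2) ℂ) (hF : F ∈ I.ideal κ (fun _ => Fin 2)) :
    pins n l F ∈ I.ideal (κ ⊕ Fin 2) (fun _ => Fin 2) := by
  set J := I.ideal (κ ⊕ Fin 2) (fun _ => Fin 2) with hJ
  have h1 : map (Ideal.Quotient.mk J) (gen F) = 0 := by
    apply eq_zero_of_eval
    intro v
    have h2 : Ideal.Quotient.mk J (ins v F) = 0 :=
      Ideal.Quotient.eq_zero_iff_mem.mpr (mem_ins I v F hF)
    rw [← h2]
    have h3 : ((eval (fun s => algebraMap ℂ (MvPolynomial (κ ⊕ Fin 2 → Fin 2) ℂ ⧸ J) (v s))).comp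
        (map (Ideal.Quotient.mk J))).comp (gen : MvPolynomial (κ → Fin 2) ℂ →ₐ[ℂ] _).toRingHom =
        (Ideal.Quotient.mk J).comp (ins v : MvPolynomial (κ → Fin 2) ℂ →ₐ[ℂ] _).toRingHom := by
      apply MvPolynomial.ringHom_ext
      · intro c
        simp only [RingHom.comp_apply, AlgHom.toRingHom_eq_coe, RingHom.coe_coe]
        have e1 : (C c : MvPolynomial (κ → Fin 2) ℂ) = algebraMap ℂ _ c := rfl
        rw [e1, AlgHom.commutes, AlgHom.commutes]
        have e2 : algebraMap ℂ (MvPolynomial (Fin 2 → Fin 2) (MvPolynomial (κ ⊕ Fin 2 → Fin 2) ℂ)) c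
          = C (C c) := rfl
        rw [e2, map_C, eval_C]
        rfl
      · intro α
        simp only [RingHom.comp_apply, AlgHom.toRingHom_eq_coe, RingHom.coe_coe]
        rw [gen_X, ins, aeval_X, map_sum, map_sum, map_sum]
        apply Finset.sum_congr rfl
        intro γ _
        rw [map_mul, map_mul, map_X, map_C, eval_X, eval_C, map_mul]
        rfl
    exact RingHom.congr_fun h3 F
  have h2 := Lam_map n l (Ideal.Quotient.mk J) (gen F)
  rw [h1, Lam_zero] at h2
  exact Ideal.Quotient.eq_zero_iff_mem.mp h2.symm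

end

end Pool.Agent.Helper77.DI
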