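import Pool.Agent.Helper77.DI.Pair

/-!
Pair insertion: highest weight property and `phi`.
-/

namespace Pool.Agent.Helper77.DI

open MvPolynomial

noncomputable section

theorem sum4 {B : Type} [AddCommMonoid B] (f : (Fin 2 → Fin 2) → B) :
    ∑ γ, f γ = f ![0, 0] + f ![0, 1] + f ![1, 0] + f ![1, 1] := by
  have h : (Finset.univ : Finset (Fin 2 → Fin 2)) = {![0, 0], ![0, 1], ![1, 0], ![1, 1]} := by
    decide
  rw [h, Finset.sum_insert (by decide), Finset.sum_insert (by decide),
    Finset.sum_insert (by decide), Finset.sum_singleton]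
  simp only [add_assoc]

section

variable {κ : Type}

theorem map_gen_X {A : Type} [CommRing A]
    (f : MvPolynomial (κ ⊕ Fin 2 → Fin 2) ℂ →+* A) (α : κ → Fin 2) :
    map f (gen (X α)) = ∑ γ : Fin 2 → Fin 2, X γ * C (f (X (Sum.elim α γ))) := by
  rw [gen_X, map_sum]
  apply Finset.sum_congr rfl
  intro γ _
  rw [map_mul, map_X, map_C]

theorem map_gen_old
    (f : MvPolynomial (κ ⊕ Fin 2 → Fin 2) ℂ →ₐ[ℂ] MvPolynomial (κ ⊕ Fin 2 → Fin 2) ℂ)
    (h : MvPolynomial (κ → Fin 2) ℂ →ₐ[ℂ] MvPolynomial (κ → Fin 2) ℂ)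
    (hX : ∀ α, map (f : _ →+* _) (gen (X α)) = gen (h (X α))) (F : MvPolynomial (κ → Fin 2) ℂ) :
    map (f : _ →+* _) (gen F) = gen (h F) := by
  have e : (mapAlgHom f).comp (gen (κ := κ)) = gen.comp h := by
    apply MvPolynomial.algHom_ext
    intro α
    exact hX α
  exact DFunLike.congr_fun e F

theorem map_gen_new
    (f : MvPolynomial (κ ⊕ Fin 2 → Fin 2) ℂ →ₐ[ℂ] MvPolynomial (κ ⊕ Fin 2 → Fin 2) ℂ)
    (s : MvPolynomial (Fin 2 → Fin 2) (MvPolynomial (κ ⊕ Fin 2 → Fin 2) ℂ) →ₐ[
      MvPolynomial (κ ⊕ Fin 2 → Fin 2) ℂ]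
      MvPolynomial (Fin 2 → Fin 2) (MvPolynomial (κ ⊕ Fin 2 → Fin 2) ℂ))
    (hX : ∀ α, map (f : _ →+* _) (gen (X α)) = s (gen (X α))) (F : MvPolynomial (κ → Fin 2) ℂ) :
    map (f : _ →+* _) (gen F) = s (gen F) := by
  have e : (mapAlgHom f).comp (gen (κ := κ)) = (s.restrictScalars ℂ).comp gen := by
    apply MvPolynomial.algHom_ext
    intro α
    exact hX α
  exact DFunLike.congr_fun e F

theorem Lam_gen_map (n l : ℕ)
    (f : MvPolynomial (κ ⊕ Fin 2 → Fin 2) ℂ →ₐ[ℂ] MvPolynomial (κ ⊕ Fin 2 → Fin 2) ℂ)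
    (F : MvPolynomial (κ → Fin 2) ℂ) :
    f (pins n l F) = Lam n l (map (f : _ →+* _) (gen F)) := by
  rw [Lam_map]
  rfl

theorem pins_C_mul (n l : ℕ) (c : ℂ) (F : MvPolynomial (κ → Fin 2) ℂ) :
    pins n l (C c * F) = C c * pins n l F := by
  rw [pins, map_mul]
  have e1 : gen (C c : MvPolynomial (κ → Fin 2) ℂ) = C (C c) := by
    have e1 : (C c : MvPolynomial (κ → Fin 2) ℂ) = algebraMap ℂ _ c := rfl
    rw [e1, AlgHom.commutes]
    rfl
  rw [e1, Lam_C_mul, pins]

theorem HW.pins [DecidableEq κ] {F : MvPolynomial (κ → Fin 2) ℂ} {k n l : ℕ} {b : κ → ℕ}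
    (hF : HW F k b) : HW (pins n l F) k (Sum.elim b (fun _ => l)) := by
  apply HW.mk'
  · rw [Lam_gen_map, map_gen_old _ (dMap (fun _ => 1) 2), hF.dMap_one]
    · exact pins_C_mul n l _ F
    · intro α
      rw [map_gen_X, dMap_X, map_mul, gen_X, Finset.mul_sum]
      apply Finset.sum_congr rfl
      intro γ _
      have e1 : gen (C ((2:ℂ) ^ 1) : MvPolynomial (κ → Fin 2) ℂ) = C (C (2 ^ 1)) :=
        AlgHom.commutes _ _
      rw [RingHom.coe_coe, dMap_X, e1, C_mul]
      ring
  · intro i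
    rcases i with i | c
    · rw [Lam_gen_map, map_gen_old _ (dMap (fun α => (α i : ℕ)) 2), hF.dMap_col]
      · exact pins_C_mul n l _ F
      · intro α
        rw [map_gen_X, dMap_X, map_mul, gen_X, Finset.mul_sum]
        apply Finset.sum_congr rfl
        intro γ _
        have e1 : gen (C ((2:ℂ) ^ (α i : ℕ)) : MvPolynomial (κ → Fin 2) ℂ) =
          C (C (2 ^ (α i : ℕ))) := AlgHom.commutes _ _
        rw [RingHom.coe_coe, dMap_X, e1, C_mul, Sum.elim_inl]
        ring
    · rw [Lam_gen_map, map_gen_new _ (scal c (C 2)), Lam_scal, C_pow]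
      · rfl
      · intro α
        rw [map_gen_X, gen_X, map_sum]
        apply Finset.sum_congr rfl
        intro γ _
        rw [RingHom.coe_coe, dMap_X, map_mul (scal c (C 2)), scal_X, Sum.elim_inr]
        have e1 : (scal c (C 2)) (C (X (Sum.elim α γ))) =
          (C (X (Sum.elim α γ) : MvPolynomial (κ ⊕ Fin 2 → Fin 2) ℂ) :
            MvPolynomial (Fin 2 → Fin 2) (MvPolynomial (κ ⊕ Fin 2 → Fin 2) ℂ)) :=
          AlgHom.commutes _ _
        rw [e1]
        by_cases h : γ c = 1
        · rw [if_pos h, h, C_mul]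
          simp only [Fin.val_one, pow_one]
          ring
        · have h0 : γ c = 0 := by omega
          rw [if_neg h, h0]
          simp
  · intro i τ
    rcases i with i | c
    · rw [Lam_gen_map, map_gen_old _ (uMap i τ), hF.inv, DI.pins]
      intro α
      rw [map_gen_X, uMap, uMap, aeval_X]
      split_ifs with h
      · rw [map_add, map_mul, gen_X, gen_X, Finset.mul_sum, ← Finset.sum_add_distrib]
        apply Finset.sum_congr rfl
        intro γ _
        have e1 : gen (C τ : MvPolynomial (κ → Fin 2) ℂ) = C (C τ) := AlgHom.commutes _ _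
        rw [RingHom.coe_coe, aeval_X, e1, Sum.elim_inl, if_pos h, Sum.update_elim_inl]
        simp only [map_add, map_mul]
        ring
      · rw [gen_X]
        apply Finset.sum_congr rfl
        intro γ _
        rw [RingHom.coe_coe, aeval_X, Sum.elim_inl, if_neg h]
    · rw [Lam_gen_map, map_gen_new _ (unip c (C τ)), Lam_unip, DI.pins]
      intro α
      rw [map_gen_X, gen_X, map_sum]
      have e1 : ∀ γ : Fin 2 → Fin 2, (unip c (C τ)) (C (X (Sum.elim α γ))) =
          (C (X (Sum.elim α γ) : MvPolynomial (κ ⊕ Fin 2 → Fin 2) ℂ) :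
            MvPolynomial (Fin 2 → Fin 2) (MvPolynomial (κ ⊕ Fin 2 → Fin 2) ℂ)) :=
          fun γ => AlgHom.commutes _ _
      simp_rw [map_mul, e1, unip_X, RingHom.coe_coe, uMap, aeval_X, Sum.elim_inr,
        Sum.update_elim_inr]
      rw [sum4, sum4]
      fin_cases c
      · have e1 : Function.update (![1, 1] : Fin 2 → Fin 2) 0 0 = ![0, 1] := by decide
        have e2 : Function.update (![1, 0] : Fin 2 → Fin 2) 0 0 = ![0, 0] := by decide
        have e3 : Function.update (![0, 1] : Fin 2 → Fin 2) 0 1 = ![1, 1] := by decide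
        have e4 : Function.update (![0, 0] : Fin 2 → Fin 2) 0 1 = ![1, 0] := by decide
        simp [e1, e2, e3, e4]
        ring
      · have e1 : Function.update (![1, 1] : Fin 2 → Fin 2) 1 0 = ![1, 0] := by decide
        have e2 : Function.update (![0, 1] : Fin 2 → Fin 2) 1 0 = ![0, 0] := by decide
        have e3 : Function.update (![1, 0] : Fin 2 → Fin 2) 1 1 = ![1, 1] := by decide
        have e4 : Function.update (![0, 0] : Fin 2 → Fin 2) 1 1 = ![0, 1] := by decide
        simp [e1, e2, e3, e4]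
        ring

theorem phi_X [Finite κ] [DecidableEq (κ → Fin 2)] (α : κ → Fin 2) :
    phi (X α) = if α = 0 then Polynomial.X + 1 else Polynomial.X := by
  rw [phi, aeval_X]
  congr!

theorem map_phi_gen [Finite κ] [DecidableEq (κ → Fin 2)] (F : MvPolynomial (κ → Fin 2) ℂ) :
    map (phi (ι := κ ⊕ Fin 2) : _ →+* Polynomial ℂ) (gen F) =
      aeval (fun α : κ → Fin 2 => if α = 0 then
        C Polynomial.X * SS (Polynomial ℂ) + X ![0, 0] else C Polynomial.X * SS (Polynomial ℂ))
        F := by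
  classical
  have e : (mapAlgHom (phi (ι := κ ⊕ Fin 2))).comp (gen (κ := κ)) =
      aeval (fun α : κ → Fin 2 => if α = 0 then
        C Polynomial.X * SS (Polynomial ℂ) + X ![0, 0] else C Polynomial.X * SS (Polynomial ℂ)) := by
    apply MvPolynomial.algHom_ext
    intro α
    rw [aeval_X]
    have h := map_gen_X (phi (ι := κ ⊕ Fin 2) : _ →+* Polynomial ℂ) α
    rw [AlgHom.comp_apply]
    refine Eq.trans h ?_
    simp_rw [RingHom.coe_coe, phi_X]
    have h1 : ∀ γ : Fin 2 → Fin 2, (Sum.elim α γ = 0) ↔ (α = 0 ∧ γ = 0) := by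
      intro γ
      constructor
      · intro h
        exact ⟨funext fun i => congrFun h (Sum.inl i), funext fun i => congrFun h (Sum.inr i)⟩
      · rintro ⟨rfl, rfl⟩
        funext i
        rcases i with i | i <;> rfl
    simp_rw [h1]
    rw [sum4, SS, sum4]
    have h2 : (![0, 0] : Fin 2 → Fin 2) = 0 := by decide
    have h3 : (![0, 1] : Fin 2 → Fin 2) ≠ 0 := by decide
    have h4 : (![1, 0] : Fin 2 → Fin 2) ≠ 0 := by decide
    have h5 : (![1, 1] : Fin 2 → Fin 2) ≠ 0 := by decide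
    by_cases h : α = 0
    · simp only [h, h2, h3, h4, h5, and_self, and_false, if_true, if_false, map_add, map_one]
      ring
    · simp only [h, h2, h3, h4, h5, false_and, if_false]
      ring
  exact DFunLike.congr_fun e F

theorem phi_pins [Finite κ] {F : MvPolynomial (κ → Fin 2) ℂ} {k n l : ℕ}
    (hF : F.IsHomogeneous k) (hk : k = n + 2 * l) :
    phi (pins n l F) = ∑ r ∈ Finset.range (k + 1), Polynomial.C ((phi F).coeff r) *
      Polynomial.X ^ r * ((r.descFactorial l * (k - r).descFactorial l * n.factorial : ℕ) :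
        Polynomial ℂ) := by
  classical
  have h1 := Lam_map n l (phi (ι := κ ⊕ Fin 2) : _ →+* Polynomial ℂ) (gen F)
  rw [map_phi_gen, hom_phi _ _ k F hF] at h1
  refine Eq.trans h1.symm ?_
  rw [Lam_sum]
  apply Finset.sum_congr rfl
  intro r hr
  have hr' : r ≤ k := by have := Finset.mem_range.mp hr; omega
  have e1 : algebraMap ℂ (MvPolynomial (Fin 2 → Fin 2) (Polynomial ℂ)) ((phi F).coeff r) =
    C (Polynomial.C ((phi F).coeff r)) := rfl
  have e2 : C (Polynomial.C ((phi F).coeff r)) *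
      ((C Polynomial.X * SS (Polynomial ℂ)) ^ r * X ![0, 0] ^ (k - r)) =
      C (Polynomial.C ((phi F).coeff r) * Polynomial.X ^ r) *
        (SS (Polynomial ℂ) ^ r * X ![0, 0] ^ (k - r)) := by
    rw [mul_pow, C_mul, C_pow]
    ring
  rw [e1, e2, Lam_C_mul, Lam_mono n l r (k - r) (by omega)]

theorem coeff_phi_pins [Finite κ] {F : MvPolynomial (κ → Fin 2) ℂ} {k n l : ℕ}
    (hF : F.IsHomogeneous k) (hk : k = n + 2 * l) (r : ℕ) (hr : r ≤ k) :
    (phi (pins n l F)).coeff r = (phi F).coeff r *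
      ((r.descFactorial l * (k - r).descFactorial l * n.factorial : ℕ) : ℂ) := by
  rw [phi_pins hF hk, Polynomial.finsetSum_coeff, Finset.sum_eq_single r]
  · rw [← Polynomial.C_eq_natCast, mul_assoc, Polynomial.coeff_C_mul, mul_comm (Polynomial.X ^ r),
      Polynomial.coeff_C_mul, Polynomial.coeff_X_pow_self, mul_one]
  · intro r' _ hne
    rw [← Polynomial.C_eq_natCast, mul_assoc, Polynomial.coeff_C_mul, mul_comm (Polynomial.X ^ r'),
      Polynomial.coeff_C_mul, Polynomial.coeff_X_pow, if_neg hne.symm, mul_zero, mul_zero]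
  · intro h
    exact absurd (Finset.mem_range.mpr (by omega)) h

end

end

end Pool.Agent.Helper77.DI
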