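import Pool.Agent.Helper77.DI.Base

/-!
Diagonal substitutions; basic properties of `HW`.
-/

namespace Pool.Agent.Helper77.DI

open MvPolynomial

noncomputable section

/-- diagonal substitution `x_s ↦ t ^ w s * x_s` -/
def dMap {σ : Type} (w : σ → ℕ) (t : ℂ) : MvPolynomial σ ℂ →ₐ[ℂ] MvPolynomial σ ℂ :=
  aeval fun s => C (t ^ w s) * X s

theorem dMap_X {σ : Type} (w : σ → ℕ) (t : ℂ) (s : σ) :
    dMap w t (X s) = C (t ^ w s) * X s := by
  simp [dMap]

theorem dMap_monomial {σ : Type} (w : σ → ℕ) (t : ℂ) (m : σ →₀ ℕ) (c : ℂ) :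
    dMap w t (monomial m c) = monomial m (t ^ (m.sum fun s e => e * w s) * c) := by
  rw [dMap, aeval_monomial]
  have h : (m.prod fun s e => (C (t ^ w s) * X s : MvPolynomial σ ℂ) ^ e) =
      C (t ^ (m.sum fun s e => e * w s)) * monomial m 1 := by
    rw [Finsupp.prod, Finsupp.sum, ← Finset.prod_pow_eq_pow_sum]
    simp_rw [mul_pow]
    rw [Finset.prod_mul_distrib, map_prod]
    congr 1
    · apply Finset.prod_congr rfl
      intro s _
      rw [← C_pow, ← pow_mul, mul_comm]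
    · rw [monomial_eq, C_1, one_mul, Finsupp.prod]
  rw [h, ← mul_assoc]
  have h2 : (algebraMap ℂ (MvPolynomial σ ℂ) c) = C c := rfl
  rw [h2, ← C_mul, C_mul_monomial, mul_one, mul_comm]

theorem coeff_dMap {σ : Type} (w : σ → ℕ) (t : ℂ) (m : σ →₀ ℕ) (F : MvPolynomial σ ℂ) :
    coeff m (dMap w t F) = t ^ (m.sum fun s e => e * w s) * coeff m F := by
  classical
  induction F using MvPolynomial.induction_on' with
  | monomial u a =>
    rw [dMap_monomial, coeff_monomial, coeff_monomial]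
    split_ifs with h
    · rw [h]
    · simp
  | add p q hp hq => rw [map_add, coeff_add, coeff_add, hp, hq, mul_add]

theorem dMap_of_weight {σ : Type} (w : σ → ℕ) (F : MvPolynomial σ ℂ) (n : ℕ)
    (h : ∀ m ∈ F.support, (m.sum fun s e => e * w s) = n) (t : ℂ) :
    dMap w t F = C (t ^ n) * F := by
  ext m
  rw [coeff_dMap, coeff_C_mul]
  by_cases hm : m ∈ F.support
  · rw [h m hm]
  · rw [notMem_support_iff.mp hm]
    simp

theorem weight_of_dMap {σ : Type} (w : σ → ℕ) (F : MvPolynomial σ ℂ) (n : ℕ)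
    (h : dMap w 2 F = C (2 ^ n) * F) : ∀ m ∈ F.support, (m.sum fun s e => e * w s) = n := by
  intro m hm
  have h1 := congrArg (coeff m) h
  rw [coeff_dMap, coeff_C_mul] at h1
  have h2 := mul_right_cancel₀ (mem_support_iff.mp hm) h1
  have h3 : ((2 ^ (m.sum fun s e => e * w s) : ℕ) : ℂ) = ((2 ^ n : ℕ) : ℂ) := by
    push_cast
    exact h2
  exact Nat.pow_right_injective (le_refl 2) (Nat.cast_injective h3)

theorem isHomogeneous_iff_sum {σ : Type} (F : MvPolynomial σ ℂ) (k : ℕ) :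
    F.IsHomogeneous k ↔ ∀ m ∈ F.support, (m.sum fun _ e => e * 1) = k := by
  constructor
  · intro h m hm
    have := h (mem_support_iff.mp hm)
    rw [Finsupp.weight_apply] at this
    simpa using this
  · intro h m hm
    have := h m (mem_support_iff.mpr hm)
    rw [Finsupp.weight_apply]
    simpa using this

theorem HW.dMap_one {ι : Type} [DecidableEq ι] {F : MvPolynomial (ι → Fin 2) ℂ} {k : ℕ}
    {b : ι → ℕ} (h : HW F k b) (t : ℂ) : dMap (fun _ => 1) t F = C (t ^ k) * F :=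
  dMap_of_weight _ F k ((isHomogeneous_iff_sum F k).mp h.homog) t

theorem HW.dMap_col {ι : Type} [DecidableEq ι] {F : MvPolynomial (ι → Fin 2) ℂ} {k : ℕ}
    {b : ι → ℕ} (h : HW F k b) (i : ι) (t : ℂ) :
    dMap (fun α : ι → Fin 2 => (α i : ℕ)) t F = C (t ^ b i) * F :=
  dMap_of_weight _ F (b i) (fun m hm => h.weight m hm i) t

theorem HW.mk' {ι : Type} [DecidableEq ι] {F : MvPolynomial (ι → Fin 2) ℂ} {k : ℕ} {b : ι → ℕ}
    (h1 : dMap (fun _ => 1) 2 F = C (2 ^ k) * F)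
    (h2 : ∀ i, dMap (fun α : ι → Fin 2 => (α i : ℕ)) 2 F = C (2 ^ b i) * F)
    (h3 : ∀ (i : ι) (τ : ℂ), uMap i τ F = F) : HW F k b :=
  ⟨(isHomogeneous_iff_sum F k).mpr (weight_of_dMap _ F k h1),
    fun m hm i => weight_of_dMap _ F (b i) (h2 i) m hm, h3⟩

theorem HW.mul {ι : Type} [DecidableEq ι] {F G : MvPolynomial (ι → Fin 2) ℂ} {k l : ℕ}
    {b c : ι → ℕ} (hF : HW F k b) (hG : HW G l c) : HW (F * G) (k + l) (fun i => b i + c i) := by
  apply HW.mk'
  · rw [map_mul, hF.dMap_one, hG.dMap_one, pow_add, C_mul]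
    ring
  · intro i
    rw [map_mul, hF.dMap_col, hG.dMap_col, pow_add, C_mul]
    ring
  · intro i τ
    rw [map_mul, hF.inv, hG.inv]

theorem HW.add {ι : Type} [DecidableEq ι] {F G : MvPolynomial (ι → Fin 2) ℂ} {k : ℕ}
    {b : ι → ℕ} (hF : HW F k b) (hG : HW G k b) : HW (F + G) k b := by
  apply HW.mk'
  · rw [map_add, hF.dMap_one, hG.dMap_one, mul_add]
  · intro i
    rw [map_add, hF.dMap_col, hG.dMap_col, mul_add]
  · intro i τ
    rw [map_add, hF.inv, hG.inv]

theorem HW.smul {ι : Type} [DecidableEq ι] {F : MvPolynomial (ι → Fin 2) ℂ} {k : ℕ}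
    {b : ι → ℕ} (c : ℂ) (hF : HW F k b) : HW (c • F) k b := by
  apply HW.mk'
  · rw [map_smul, hF.dMap_one, mul_smul_comm]
  · intro i
    rw [map_smul, hF.dMap_col, mul_smul_comm]
  · intro i τ
    rw [map_smul, hF.inv]

theorem HW.sub {ι : Type} [DecidableEq ι] {F G : MvPolynomial (ι → Fin 2) ℂ} {k : ℕ}
    {b : ι → ℕ} (hF : HW F k b) (hG : HW G k b) : HW (F - G) k b := by
  have := hF.add (hG.smul (-1))
  rwa [neg_one_smul, ← sub_eq_add_neg] at this

theorem HW.zero {ι : Type} [DecidableEq ι] (k : ℕ) (b : ι → ℕ) :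
    HW (0 : MvPolynomial (ι → Fin 2) ℂ) k b := by
  apply HW.mk' <;> simp

end

end Pool.Agent.Helper77.DI
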