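import Pool.Agent.Helper77.DI.Dat

/-!
The basic multipliers and closure of the data under `Step`.
-/

namespace Pool.Agent.Helper77.DI

open MvPolynomial

noncomputable section

theorem uMap_X {ι : Type} [DecidableEq ι] (i : ι) (τ : ℂ) (α : ι → Fin 2) :
    uMap i τ (X α) = if α i = 1 then X α + C τ * X (Function.update α i 0) else X α := by
  rw [uMap, aeval_X]

/-- the `2`-minor -/
def mnr : MvPolynomial (Fin 2 → Fin 2) ℂ :=
  X ![0, 0] * X ![1, 1] - X ![0, 1] * X ![1, 0]

theorem HW_mnr : HW mnr 2 (fun _ => 1) := by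
  apply HW.mk'
  · simp only [mnr, map_sub, map_mul, dMap_X, map_pow]
    ring
  · intro i
    fin_cases i <;> simp [mnr, dMap_X] <;> ring
  · intro i τ
    fin_cases i
    · have e1 : Function.update (![1, 1] : Fin 2 → Fin 2) 0 0 = ![0, 1] := by decide
      have e2 : Function.update (![1, 0] : Fin 2 → Fin 2) 0 0 = ![0, 0] := by decide
      simp [mnr, uMap_X, e1, e2]
      ring
    · have e1 : Function.update (![1, 1] : Fin 2 → Fin 2) 1 0 = ![1, 0] := by decide
      have e2 : Function.update (![0, 1] : Fin 2 → Fin 2) 1 0 = ![0, 0] := by decide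
      simp [mnr, uMap_X, e1, e2]
      ring

theorem phi_mnr : phi mnr = Polynomial.X := by
  have h2 : (![0, 0] : Fin 2 → Fin 2) = 0 := by decide
  have h3 : (![0, 1] : Fin 2 → Fin 2) ≠ 0 := by decide
  have h4 : (![1, 0] : Fin 2 → Fin 2) ≠ 0 := by decide
  have h5 : (![1, 1] : Fin 2 → Fin 2) ≠ 0 := by decide
  simp only [mnr, map_sub, map_mul, phi_X, h2, h3, h4, h5, if_true, if_false]
  ring

/-- Cayley's hyperdeterminant -/
def hyp : MvPolynomial (Fin 3 → Fin 2) ℂ :=
  X ![0, 0, 0] ^ 2 * X ![1, 1, 1] ^ 2 + X ![0, 0, 1] ^ 2 * X ![1, 1, 0] ^ 2 +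
    X ![0, 1, 0] ^ 2 * X ![1, 0, 1] ^ 2 + X ![1, 0, 0] ^ 2 * X ![0, 1, 1] ^ 2 -
    2 * (X ![0, 0, 0] * X ![0, 0, 1] * X ![1, 1, 0] * X ![1, 1, 1] +
      X ![0, 0, 0] * X ![0, 1, 0] * X ![1, 0, 1] * X ![1, 1, 1] +
      X ![0, 0, 0] * X ![1, 0, 0] * X ![0, 1, 1] * X ![1, 1, 1] +
      X ![0, 0, 1] * X ![0, 1, 0] * X ![1, 0, 1] * X ![1, 1, 0] +
      X ![0, 0, 1] * X ![1, 0, 0] * X ![0, 1, 1] * X ![1, 1, 0] +
      X ![0, 1, 0] * X ![1, 0, 0] * X ![0, 1, 1] * X ![1, 0, 1]) +
    4 * (X ![0, 0, 0] * X ![0, 1, 1] * X ![1, 0, 1] * X ![1, 1, 0] +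
      X ![0, 0, 1] * X ![0, 1, 0] * X ![1, 0, 0] * X ![1, 1, 1])

theorem HW_hyp : HW hyp 4 (fun _ => 2) := by
  apply HW.mk'
  · simp only [hyp, map_sub, map_add, map_mul, map_pow, map_ofNat, dMap_X, pow_one]
    ring
  · intro i
    fin_cases i
    · simp only [hyp, map_sub, map_add, map_mul, map_pow, map_ofNat, dMap_X, Fin.zero_eta,
        Matrix.cons_val_zero, Fin.val_zero, Fin.val_one, pow_one, pow_zero, C_1]
      ring
    · simp only [hyp, map_sub, map_add, map_mul, map_pow, map_ofNat, dMap_X, Fin.mk_one,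
        Matrix.cons_val_one, Matrix.cons_val_zero, Fin.val_zero, Fin.val_one, pow_one, pow_zero, C_1]
      ring
    · simp only [hyp, map_sub, map_add, map_mul, map_pow, map_ofNat, dMap_X, Fin.reduceFinMk,
        Matrix.cons_val, Fin.val_zero, Fin.val_one, pow_one, pow_zero, C_1]
      ring
  · intro i τ
    have z : (0 : Fin 2) ≠ 1 := by decide
    fin_cases i
    · have e : ∀ b c : Fin 2, Function.update (![1, b, c] : Fin 3 → Fin 2) 0 0 = ![0, b, c] := by
        decide
      have u1 : ∀ b c : Fin 2, uMap 0 τ (X ![1, b, c]) = X ![1, b, c] + C τ * X ![0, b, c] := by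
        intro b c
        rw [uMap_X, if_pos (show (![1, b, c] : Fin 3 → Fin 2) 0 = 1 from rfl), e]
      have u0 : ∀ b c : Fin 2, uMap 0 τ (X ![0, b, c]) = X ![0, b, c] := by
        intro b c
        rw [uMap_X, if_neg (show ¬ (![0, b, c] : Fin 3 → Fin 2) 0 = 1 from z)]
      simp only [hyp, map_sub, map_add, map_mul, map_pow, map_ofNat, Fin.zero_eta, u0, u1]
      ring
    · have e : ∀ b c : Fin 2, Function.update (![b, 1, c] : Fin 3 → Fin 2) 1 0 = ![b, 0, c] := by
        decide
      have u1 : ∀ b c : Fin 2, uMap 1 τ (X ![b, 1, c]) = X ![b, 1, c] + C τ * X ![b, 0, c] := by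
        intro b c
        rw [uMap_X, if_pos (show (![b, 1, c] : Fin 3 → Fin 2) 1 = 1 from rfl), e]
      have u0 : ∀ b c : Fin 2, uMap 1 τ (X ![b, 0, c]) = X ![b, 0, c] := by
        intro b c
        rw [uMap_X, if_neg (show ¬ (![b, 0, c] : Fin 3 → Fin 2) 1 = 1 from z)]
      simp only [hyp, map_sub, map_add, map_mul, map_pow, map_ofNat, Fin.mk_one, u0, u1]
      ring
    · have e : ∀ b c : Fin 2, Function.update (![b, c, 1] : Fin 3 → Fin 2) 2 0 = ![b, c, 0] := by
        decide
      have u1 : ∀ b c : Fin 2, uMap 2 τ (X ![b, c, 1]) = X ![b, c, 1] + C τ * X ![b, c, 0] := by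
        intro b c
        rw [uMap_X, if_pos (show (![b, c, 1] : Fin 3 → Fin 2) 2 = 1 from rfl), e]
      have u0 : ∀ b c : Fin 2, uMap 2 τ (X ![b, c, 0]) = X ![b, c, 0] := by
        intro b c
        rw [uMap_X, if_neg (show ¬ (![b, c, 0] : Fin 3 → Fin 2) 2 = 1 from z)]
      simp only [hyp, map_sub, map_add, map_mul, map_pow, map_ofNat, Fin.reduceFinMk, u0, u1]
      ring

theorem phi_hyp : phi hyp = Polynomial.X ^ 2 := by
  have h2 : (![0, 0, 0] : Fin 3 → Fin 2) = 0 := by decide
  have h3 : (![0, 0, 1] : Fin 3 → Fin 2) ≠ 0 := by decide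
  have h4 : (![0, 1, 0] : Fin 3 → Fin 2) ≠ 0 := by decide
  have h5 : (![0, 1, 1] : Fin 3 → Fin 2) ≠ 0 := by decide
  have h6 : (![1, 0, 0] : Fin 3 → Fin 2) ≠ 0 := by decide
  have h7 : (![1, 0, 1] : Fin 3 → Fin 2) ≠ 0 := by decide
  have h8 : (![1, 1, 0] : Fin 3 → Fin 2) ≠ 0 := by decide
  have h9 : (![1, 1, 1] : Fin 3 → Fin 2) ≠ 0 := by decide
  simp only [hyp, map_sub, map_add, map_mul, map_pow, map_ofNat, phi_X, h2, h3, h4, h5, h6, h7,
    h8, h9, if_true, if_false]
  ring

theorem dat_mnr : Dat topI (2, 1, Multiset.replicate 2 1) := by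
  refine ⟨Fin 2, inferInstance, inferInstance, inferInstance, fun _ => 1, mnr, trivial, HW_mnr,
    ?_, ?_, ?_⟩
  · rw [phi_mnr]
    exact Polynomial.X_ne_zero
  · rw [phi_mnr]
    exact Polynomial.natTrailingDegree_X
  · rw [Multiset.map_const', Finset.card_val, Finset.card_univ, Fintype.card_fin]

theorem dat_hyp : Dat topI (4, 2, Multiset.replicate 3 2) := by
  refine ⟨Fin 3, inferInstance, inferInstance, inferInstance, fun _ => 2, hyp, trivial, HW_hyp,
    ?_, ?_, ?_⟩
  · rw [phi_hyp]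
    exact pow_ne_zero _ Polynomial.X_ne_zero
  · rw [phi_hyp]
    have h := natTrailingDegree_eq_of (p := (Polynomial.X ^ 2 : Polynomial ℂ)) (r := 2) (by
      rw [Polynomial.coeff_X_pow_self]
      exact one_ne_zero) (by
      intro m hm
      rw [Polynomial.coeff_X_pow, if_neg (by omega)])
    exact h.2
  · rw [Multiset.map_const', Finset.card_val, Finset.card_univ, Fintype.card_fin]

theorem dat_even (m n : ℕ) :
    Dat topI (2, 1, Multiset.replicate n 0 + Multiset.replicate (2 * m + 2) 1) := by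
  induction n with
  | zero =>
    rw [Multiset.replicate_zero, zero_add]
    induction m with
    | zero => exact dat_mnr
    | succ m ih =>
      have h := ih.pair 1 (le_refl 1)
      rwa [← Multiset.replicate_succ, ← Multiset.replicate_succ] at h
  | succ n ih =>
    rw [Multiset.replicate_succ, Multiset.cons_add]
    exact ih.zero

theorem dat_odd (m n : ℕ) :
    Dat topI (4, 2, Multiset.replicate n 0 + Multiset.replicate (2 * m + 3) 2) := by
  induction n with
  | zero =>
    rw [Multiset.replicate_zero, zero_add]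
    induction m with
    | zero => exact dat_hyp
    | succ m ih =>
      have h := ih.pair 2 (le_refl 2)
      rwa [← Multiset.replicate_succ, ← Multiset.replicate_succ] at h
  | succ n ih =>
    rw [Multiset.replicate_succ, Multiset.cons_add]
    exact ih.zero

theorem Dat.mulX {I : DeltaIdeal} {k r : ℕ} {s : Multiset ℕ} (h : Dat I (k, r, s)) :
    Dat I (k + 1, r, s) := by
  classical
  obtain ⟨ι, _, _, _, b, F, hF, h1, h2, h3, h4⟩ := h
  simp only at h1 h3 h4
  have hX : HW (X 0 : MvPolynomial (ι → Fin 2) ℂ) 1 (fun _ => 0) := by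
    apply HW.mk'
    · rw [dMap_X]
    · intro i
      rw [dMap_X]
      rfl
    · intro i τ
      rw [uMap_X, if_neg (by simp)]
  have hp : phi (X 0 : MvPolynomial (ι → Fin 2) ℂ) = Polynomial.X + 1 := by
    rw [phi_X, if_pos rfl]
  have h0 : (Polynomial.X + 1 : Polynomial ℂ) ≠ 0 ∧
      (Polynomial.X + 1 : Polynomial ℂ).natTrailingDegree = 0 :=
    natTrailingDegree_eq_of (by simp) (by intro m hm; omega)
  refine ⟨ι, inferInstance, inferInstance, inferInstance, b, F * X 0,
    Ideal.mul_mem_right _ _ hF, ?_, ?_, ?_, h4⟩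
  · have := h1.mul hX
    simpa using this
  · rw [map_mul, hp]
    exact mul_ne_zero h2 h0.1
  · rw [map_mul, hp, Polynomial.natTrailingDegree_mul h2 h0.1, h3, h0.2]
    rfl

theorem Dat.mul' {I : DeltaIdeal} {k r k' r' c : ℕ} {s t : Multiset ℕ}
    (h : Dat I (k, r, s + t))
    (h' : Dat topI (k', r', Multiset.replicate (Multiset.card t) 0 +
      Multiset.replicate (Multiset.card s) c)) :
    Dat I (k + k', r + r', s.map (· + c) + t) := by
  have h1 := Dat.mul (I := I) (k := k) (r := r) (k' := k') (r' := r')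
    (s.map (fun a => (a, c)) + t.map (fun a => (a, 0))) (by
      rw [Multiset.map_add, Multiset.map_map, Multiset.map_map]
      simpa [Function.comp_def] using h) (by
      rw [Multiset.map_add, Multiset.map_map, Multiset.map_map, add_comm]
      simpa [Function.comp_def] using h')
  rw [Multiset.map_add, Multiset.map_map, Multiset.map_map] at h1
  simpa [Function.comp_def] using h1

theorem Dat.step {I : DeltaIdeal} {x y : ℕ × ℕ × Multiset ℕ} (hx : Dat I x) (h : Step x y) :
    Dat I y := by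
  cases h with
  | x0 k r s => exact hx.mulX
  | even k r s t h h2 =>
    apply hx.mul'
    obtain ⟨m, hm⟩ : ∃ m, Multiset.card s = 2 * m + 2 := by
      obtain ⟨a, ha⟩ := h
      exact ⟨a - 1, by omega⟩
    rw [hm]
    exact dat_even m _
  | odd k r s t h h3 =>
    apply hx.mul'
    obtain ⟨m, hm⟩ : ∃ m, Multiset.card s = 2 * m + 3 := by
      obtain ⟨a, ha⟩ := h
      exact ⟨a - 1, by omega⟩
    rw [hm]
    exact dat_odd m _
  | zero k r s => exact hx.zero
  | pair k r l s h => exact hx.pair l h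

theorem Dat.reach {I : DeltaIdeal} {x y : ℕ × ℕ × Multiset ℕ} (hx : Dat I x)
    (h : Relation.ReflTransGen Step x y) : Dat I y := by
  induction h with
  | refl => exact hx
  | tail _ h ih => exact ih.step h

end

end Pool.Agent.Helper77.DI
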